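import Mathlib

/-!
# The arithmetic input
-/

namespace H880R2.DetSig

/-- for a prime `p ≡ 1 mod 4` there is a prime `q ≡ 3 mod 4` such that `-p` is a square mod `q` -/
theorem exists_q (p : ℕ) [hp : Fact p.Prime] (hp4 : p % 4 = 1) :
    ∃ q : ℕ, q.Prime ∧ q % 4 = 3 ∧ ∃ j : ℕ, j % 2 = 1 ∧ 0 < j ∧ j < 2 * q ∧ 2 * q ∣ p + j ^ 2 := by
  have hp2 : p ≠ 2 := by omega
  obtain ⟨a, ha⟩ := FiniteField.exists_nonsquare (F := ZMod p) (by
    rw [ZMod.ringChar_zmod_n]; exact hp2)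
  have ha0 : a ≠ 0 := by rintro rfl; exact ha (IsSquare.zero)
  have hcop : Nat.Coprime 4 p := by
    rw [Nat.coprime_comm]
    exact (Nat.Prime.coprime_iff_not_dvd hp.out).2 (by
      intro h
      have h1 := Nat.le_of_dvd (by norm_num) h
      have h2 := hp.out.two_le
      omega)
  obtain ⟨m, hm4, hmp⟩ := Nat.chineseRemainder hcop 3 a.val
  have hmcop : Nat.Coprime m (4 * p) := by
    apply Nat.Coprime.mul_right
    · have h1 : m % 4 = 3 := hm4
      have h2 : Nat.Coprime m 4 ↔ Nat.Coprime (m % 4) 4 := by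
        rw [Nat.Coprime, Nat.Coprime, Nat.gcd_comm m 4, Nat.gcd_rec]
      rw [h2, h1]; decide
    · rw [Nat.coprime_comm]
      refine (Nat.Prime.coprime_iff_not_dvd hp.out).2 ?_
      intro h
      have h1 : (m : ZMod p) = 0 := (ZMod.natCast_eq_zero_iff m p).2 h
      have h2 : (m : ZMod p) = (a.val : ZMod p) := (ZMod.natCast_eq_natCast_iff m a.val p).2 hmp
      rw [h1, ZMod.natCast_zmod_val] at h2
      exact ha0 h2.symm
  obtain ⟨q, hqn, hq, hqm⟩ := Nat.forall_exists_prime_gt_and_modEq 2 (q := 4 * p)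
    (by have := hp.out.pos; omega) hmcop
  have hq4 : q % 4 = 3 := by
    have h1 : q ≡ m [MOD 4] := hqm.of_mul_right p
    exact (h1.trans hm4 : q ≡ 3 [MOD 4])
  have hqp : (q : ZMod p) = a := by
    have h1 : q ≡ m [MOD p] := Nat.ModEq.of_mul_left 4 hqm
    have h2 : q ≡ a.val [MOD p] := h1.trans hmp
    have h3 := (ZMod.natCast_eq_natCast_iff q a.val p).2 h2
    rw [h3, ZMod.natCast_zmod_val]
  have : Fact q.Prime := ⟨hq⟩
  have hq2 : q ≠ 2 := by omega
  have hpq : p ≠ q := by omega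
  have hL1 : legendreSym p q = -1 := by
    rw [legendreSym.eq_neg_one_iff]
    push_cast
    rw [hqp]; exact ha
  have hL2 : legendreSym q p = -1 := by
    rw [← hL1]
    exact legendreSym.quadratic_reciprocity_one_mod_four hp4 hq2
  have hL3 : legendreSym q (-1) = -1 := by
    rw [legendreSym.eq_neg_one_iff]
    push_cast
    rw [ZMod.exists_sq_eq_neg_one_iff]
    simp [hq4]
  have hp0 : (p : ZMod q) ≠ 0 := by
    intro h
    have h1 : q ∣ p := (ZMod.natCast_eq_zero_iff p q).1 h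
    exact hpq ((Nat.prime_dvd_prime_iff_eq hq hp.out).1 h1).symm
  have hL4 : legendreSym q (-(p : ℤ)) = 1 := by
    have : (-(p : ℤ)) = (-1) * (p : ℤ) := by ring
    rw [this, legendreSym.mul, hL2, hL3]; norm_num
  have hsq : IsSquare (((-(p : ℤ) : ℤ)) : ZMod q) := by
    rw [legendreSym.eq_one_iff] at hL4
    · exact hL4
    · push_cast; exact neg_ne_zero.2 hp0
  obtain ⟨y, hy⟩ := hsq
  push_cast at hy
  have hy0 : y ≠ 0 := by
    rintro rfl
    apply hp0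
    have : -(p : ZMod q) = 0 := by rw [hy]; ring
    simpa using this
  have hyv : 0 < y.val := Nat.pos_of_ne_zero (fun h => hy0 ((ZMod.val_eq_zero y).1 h))
  have hyv2 : y.val < q := ZMod.val_lt y
  have key : ∀ j : ℕ, (j : ZMod q) = y → j % 2 = 1 → 2 * q ∣ p + j ^ 2 := by
    intro j hj hj2
    have h1 : q ∣ p + j ^ 2 := by
      rw [← ZMod.natCast_eq_zero_iff]
      push_cast
      rw [hj, sq, ← hy]; ring
    have h2 : 2 ∣ p + j ^ 2 := by
      obtain ⟨k, hk⟩ : ∃ k, j = 2 * k + 1 := ⟨j / 2, by omega⟩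
      obtain ⟨l, hl⟩ : ∃ l, p = 2 * l + 1 := ⟨p / 2, by omega⟩
      rw [hk, hl]
      exact ⟨l + 2 * k ^ 2 + 2 * k + 1, by ring⟩
    apply Nat.Coprime.mul_dvd_of_dvd_of_dvd _ h2 h1
    exact (Nat.coprime_primes Nat.prime_two hq).2 (Ne.symm hq2)
  refine ⟨q, hq, hq4, ?_⟩
  by_cases hodd : y.val % 2 = 1
  · exact ⟨y.val, hodd, hyv, by omega, key _ (ZMod.natCast_zmod_val y) hodd⟩
  · refine ⟨y.val + q, by omega, by omega, by omega, key _ ?_ (by omega)⟩
    push_cast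
    rw [ZMod.natCast_zmod_val, ZMod.natCast_self, add_zero]

/-- the arithmetic decomposition used for the construction -/
theorem arith (n : ℕ) (hn4 : n % 4 = 1) (hn : 1 < n) :
    ∃ n₁ n₂ q j : ℕ, n = n₁ * n₂ ∧ n₁ % 4 = 1 ∧ n₂ % 4 = 1 ∧ q % 4 = 3 ∧ j % 2 = 1 ∧ j < 2 * q ∧
      2 * q ∣ n₁ + j ^ 2 := by
  by_cases h : ∃ q, q.Prime ∧ q ∣ n ∧ q % 4 = 3
  · obtain ⟨q, hq, hqn, hq4⟩ := h
    refine ⟨n, 1, q, q, by ring, hn4, rfl, hq4, by omega, by have := hq.pos; omega, ?_⟩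
    have h1 : q ∣ n + q ^ 2 := Dvd.dvd.add hqn (dvd_pow_self q (by norm_num))
    have h2 : 2 ∣ n + q ^ 2 := by
      obtain ⟨k, hk⟩ : ∃ k, q = 2 * k + 1 := ⟨q / 2, by omega⟩
      obtain ⟨l, hl⟩ : ∃ l, n = 2 * l + 1 := ⟨n / 2, by omega⟩
      rw [hk, hl]
      exact ⟨l + 2 * k ^ 2 + 2 * k + 1, by ring⟩
    apply Nat.Coprime.mul_dvd_of_dvd_of_dvd _ h2 h1
    exact (Nat.coprime_primes Nat.prime_two hq).2 (by omega)
  · push Not at h
    have hp : (n.minFac).Prime := Nat.minFac_prime (by omega)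
    have hpn : n.minFac ∣ n := Nat.minFac_dvd n
    have hp3 := h _ hp hpn
    have hodd : n.minFac % 2 = 1 := by
      rcases hp.eq_two_or_odd with h2 | h2
      · exfalso
        rw [h2] at hpn
        omega
      · exact h2
    have hp4 : n.minFac % 4 = 1 := by omega
    obtain ⟨n₂, hn₂⟩ := hpn
    have : Fact (n.minFac).Prime := ⟨hp⟩
    obtain ⟨q, hq, hq4, j, hj1, hj2, hj3, hj4⟩ := exists_q n.minFac hp4
    refine ⟨n.minFac, n₂, q, j, hn₂, hp4, ?_, hq4, hj1, hj3, hj4⟩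
    have h5 : n % 4 = (n.minFac % 4) * (n₂ % 4) % 4 := by
      conv_lhs => rw [hn₂]
      rw [Nat.mul_mod]
    rw [hn4, hp4] at h5
    omega

end H880R2.DetSig
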