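import Pool.Agent.H880R2.DetSig.Perm
import Pool.Agent.H880R2.DetSig.Arith

/-!
# Assembling the knots
-/

namespace H880R2.DetSig

open Matrix Module

/-- there is a knot (closed braid) with determinant `n` and signature `s` -/
def Good (n : ℕ) (s : ℤ) : Prop :=
  ∃ (N cols : ℕ) (f : Fin N → ℕ × Bool) (d : ℝ) (p q : ℕ), (∀ k, (f k).1 < cols) ∧
    FC 0 cols (perm f) ∧ Inv (symR f) d p q ∧ |d| = n ∧ (p : ℤ) - q = s

theorem Good.mul {n n' : ℕ} {s s' : ℤ} (h : Good n s) (h' : Good n' s') :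
    Good (n * n') (s + s') := by
  obtain ⟨N, c, f, d, p, q, hc, hk, hi, hd, hs⟩ := h
  obtain ⟨N', c', f', d', p', q', hc', hk', hi', hd', hs'⟩ := h'
  refine ⟨N + N', c + c', csum c f f', d * d', p + p', q + q', ?_, perm_csum c c' f f' hk hk',
    symR_csum c f f' hc hi hi', ?_, ?_⟩
  · intro k
    refine Fin.addCases (fun i => ?_) (fun i => ?_) k
    · rw [csum_castAdd]; have := hc i; omega
    · rw [csum_natAdd]; have := hc' i; simp only; omega
  · rw [abs_mul, hd, hd']; push_cast; ring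
  · push_cast; linarith

theorem good_E : Good 1 (-8) := by
  refine ⟨_, 2, eWord, 1, 0, 8, ?_, perm_twoPass 5 2 false 1 _ _ rfl rfl rfl, eWord_inv, by simp,
    by norm_num⟩
  intro k
  rcases pos_cases (j := 5) (j'' := 2) (m := 1) k with ⟨i, rfl⟩ | ⟨i, rfl⟩ | ⟨i, rfl⟩ | ⟨i, rfl⟩
  · unfold eWord; rw [tp_A]; norm_num
  · unfold eWord; rw [tp_P]; have := i.2; simp only; omega
  · unfold eWord; rw [tp_B]; norm_num
  · unfold eWord; rw [tp_Q]; have := i.2; simp only; omega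

theorem Good.sub {n : ℕ} {s : ℤ} (h : Good n s) (k : ℕ) : Good n (s - 8 * k) := by
  induction k with
  | zero => simpa using h
  | succ k ih =>
    have := ih.mul good_E
    rw [mul_one] at this
    convert this using 1
    push_cast; ring

theorem good_K (j j'' : ℕ) (c : ℤ) (hj : j % 2 = 1) (hj'' : j'' % 2 = 0) (n : ℕ) (hn : 0 < n)
    (h : (n : ℤ) = -(((j : ℤ) + j'' + 1) * (2 * c - j) + (j : ℤ) ^ 2)) :
    Good n ((j : ℤ) + j'' - 1) := by
  have hR : (n : ℝ) = -(((j : ℝ) + j'' + 1) * (2 * c - j) + (j : ℝ) ^ 2) := by exact_mod_cast h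
  have hnR : (0 : ℝ) < n := by exact_mod_cast hn
  refine ⟨_, 2 * rr c + 2, kWord j j'' c, _, _, _, ?_,
    perm_twoPass j j'' true (2 * rr c + 1) _ _ hj hj'' (by omega),
    kWord_inv j j'' c (by linarith), ?_, ?_⟩
  · intro k
    unfold kWord
    rcases pos_cases (j := j) (j'' := j'') (m := 2 * rr c + 1) k with
      ⟨i, rfl⟩ | ⟨i, rfl⟩ | ⟨i, rfl⟩ | ⟨i, rfl⟩
    · rw [tp_A]; simp
    · rw [tp_P]; have := i.2; simp only; omega
    · rw [tp_B]; simp
    · rw [tp_Q]; have := i.2; simp only; omega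
  · rw [abs_mul, abs_pow, abs_neg, abs_one, one_pow, one_mul, ← abs_neg, ← hR]
    exact abs_of_pos hnR
  · push_cast; ring

/-- a genus one two-bridge knot: any determinant `≡ 1 mod 4` with signature `0` -/
theorem good_J (n : ℕ) (hn : n % 4 = 1) : Good n 0 := by
  obtain ⟨k, rfl⟩ : ∃ k, n = 4 * k + 1 := ⟨n / 4, by omega⟩
  have := good_K 1 0 (-(k : ℤ)) rfl rfl (4 * k + 1) (by omega) (by push_cast; ring)
  simpa using this

theorem good_four (n : ℕ) (hn4 : n % 4 = 1) (hn : 1 < n) : Good n 4 := by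
  obtain ⟨n₁, n₂, q, j, hnn, h1, h2, hq, hj, hjq, k, hk⟩ := arith n hn4 hn
  -- the cofactor is odd
  have hkodd : k % 2 = 1 := by
    by_contra hcon
    obtain ⟨k', rfl⟩ : ∃ k', k = 2 * k' := ⟨k / 2, by omega⟩
    obtain ⟨i, rfl⟩ : ∃ i, j = 2 * i + 1 := ⟨j / 2, by omega⟩
    obtain ⟨a, rfl⟩ : ∃ a, n₁ = 4 * a + 1 := ⟨n₁ / 4, by omega⟩
    have h3 : (4 * a + 1 + (2 * i + 1) ^ 2) = 4 * (q * k') := by rw [hk]; ring
    have h4 : (4 * a + 1 + (2 * i + 1) ^ 2) = 4 * (a + i ^ 2 + i) + 2 := by ring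
    omega
  obtain ⟨c, hc⟩ : ∃ c : ℤ, (j : ℤ) - k = 2 * c := by
    refine ⟨((j : ℤ) - k) / 2, ?_⟩
    omega
  obtain ⟨s, hs⟩ : ∃ s, q = 4 * s + 3 := ⟨q / 4, by omega⟩
  have hn1 : 0 < n₁ := by omega
  have hK := good_K j (2 * q - j - 1) c hj (by omega) n₁ hn1 (by
    have h5 : ((2 * q - j - 1 : ℕ) : ℤ) = 2 * q - j - 1 := by omega
    rw [h5, ← hc]
    have h6 : (n₁ : ℤ) + (j : ℤ) ^ 2 = 2 * q * k := by exact_mod_cast hk
    linear_combination h6)
  have h7 : ((j : ℤ) + ((2 * q - j - 1 : ℕ) : ℤ) - 1) = 8 * s + 4 := by omega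
  rw [h7] at hK
  have h8 := (hK.mul (good_J n₂ h2)).sub s
  rw [← hnn] at h8
  convert h8 using 1
  ring

theorem Good.braid {n : ℕ} {s : ℤ} (h : Good n s) :
    ∃ β : BraidWord, β.ClosureIsKnot ∧ β.det = n ∧ β.sig = s := by
  obtain ⟨N, c, f, d, p, q, hc, hk, hi, hd, hs⟩ := h
  refine ⟨⟨c, N, f, hc⟩, ?_, ?_, ?_⟩
  · intro x hx
    exact hk.2 0 x le_rfl (Nat.zero_le _) (Nat.zero_le _) hx
  · have h1 : (((seifert f + (seifert f)ᵀ).det : ℤ) : ℝ) = d := by
      rw [← hi.1, symR]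
      exact (Int.castRingHom ℝ).map_det (seifert f + (seifert f)ᵀ)
    have h2 : ((((seifert f + (seifert f)ᵀ).det).natAbs : ℕ) : ℝ) = n := by
      rw [Nat.cast_natAbs, ← hd, ← h1]; push_cast; rfl
    exact_mod_cast h2
  · have h1 : posIndex (symR f) = p := hi.2.posIndex_eq
    have h2 : posIndex (-symR f) = q := hi.2.negIndex_eq
    show (posIndex (symR f) : ℤ) - posIndex (-symR f) = s
    rw [h1, h2, hs]

end H880R2.DetSig
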