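import Pool.Agent.H880R2.DetSig.Path

namespace H880R2.DetSig

open Matrix Module

variable {κ : Type*} [Fintype κ] [DecidableEq κ]

/-- the matrix with diagonal entries `2` and off-diagonal entries `1` -/
def onesM (κ : Type*) [DecidableEq κ] : Matrix κ κ ℝ := 1 + Matrix.of fun _ _ => 1

theorem onesM_mulVec (x : κ → ℝ) (i : κ) : (onesM κ *ᵥ x) i = x i + ∑ k, x k := by
  rw [onesM, Matrix.add_mulVec, Matrix.one_mulVec]
  simp [Matrix.mulVec, dotProduct]

theorem onesM_quad (x : κ → ℝ) : x ⬝ᵥ onesM κ *ᵥ x = ∑ k, x k ^ 2 + (∑ k, x k) ^ 2 := by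
  simp only [dotProduct, onesM_mulVec]
  simp only [mul_add, Finset.sum_add_distrib, ← Finset.sum_mul, sq]

theorem onesM_inv : Inv (onesM κ) (Fintype.card κ + 1) (Fintype.card κ) 0 := by
  refine ⟨?_, ⊤, ⊥, by simp, by simp, by simp, ?_, ?_⟩
  · have h : onesM κ = 1 + Matrix.replicateCol Unit (fun _ => (1 : ℝ)) *
        Matrix.replicateRow Unit (fun _ => (1 : ℝ)) := by
      ext i j
      simp [onesM, Matrix.mul_apply]
    rw [h, Matrix.det_one_add_replicateCol_mul_replicateRow]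
    simp [dotProduct]
    ring
  · intro x _ hx
    rw [onesM_quad]
    obtain ⟨i, hi⟩ := Function.ne_iff.1 hx
    have h1 : 0 < ∑ k, x k ^ 2 := by
      apply Finset.sum_pos' (fun k _ => sq_nonneg _)
      exact ⟨i, Finset.mem_univ _, by have : x i ≠ 0 := hi; positivity⟩
    positivity
  · intro x hx hx0
    exact absurd ((Submodule.mem_bot ℝ).1 hx) hx0

theorem neg_onesM_inv : Inv (-onesM κ) ((-1) ^ Fintype.card κ * (Fintype.card κ + 1)) 0
    (Fintype.card κ) := by
  simpa using (onesM_inv (κ := κ)).neg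

theorem one_inv_pos {x : ℝ} (hx : 0 < x) : Inv (Matrix.of fun _ _ => x : Matrix (Fin 1) (Fin 1) ℝ)
    x 1 0 := by
  refine ⟨by simp, ⊤, ⊥, by simp, by simp, by simp, ?_, ?_⟩
  · intro y _ hy
    have h0 : y 0 ≠ 0 := by
      intro h; apply hy; ext i; fin_cases i; exact h
    have : 0 < y 0 ^ 2 := by positivity
    simp [Matrix.mulVec, dotProduct]
    nlinarith
  · intro x hx hx0
    exact absurd ((Submodule.mem_bot ℝ).1 hx) hx0

theorem one_inv_neg {x : ℝ} (hx : x < 0) : Inv (Matrix.of fun _ _ => x : Matrix (Fin 1) (Fin 1) ℝ)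
    x 0 1 := by
  have h := (one_inv_pos (x := -x) (by linarith)).neg
  have h2 : -(Matrix.of fun _ _ => -x : Matrix (Fin 1) (Fin 1) ℝ) = Matrix.of fun _ _ => x := by
    ext i j; simp
  rw [h2] at h
  simpa using h

/-- reduction of the base matrix -/
theorem base_inv (s : ℝ) (hs : s ^ 2 = 1) (c : κ → ℝ) (hc : ∀ i, c i ^ 2 = c i) (x η : ℝ)
    {d : ℝ} {p q : ℕ}
    (h : Inv (fromBlocks (s • onesM κ) 0 0
      (Matrix.of fun _ _ => x - s * ((∑ i, c i) - (∑ i, c i) ^ 2 / (Fintype.card κ + 1)) :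
        Matrix (Fin 1) (Fin 1) ℝ)) d p q) :
    Inv (pathM (s • onesM κ) (fun i => - c i) η 0 x) d p q := by
  set j : ℝ := ∑ i, c i with hj
  have hl : ((Fintype.card κ : ℝ) + 1) ≠ 0 := by positivity
  obtain ⟨Y, hY⟩ : ∃ Y : Matrix κ (Fin 1) ℝ,
      ∀ i k, Y i k = s * (c i - j / (Fintype.card κ + 1)) := ⟨_, fun _ _ => rfl⟩
  let X : Matrix (κ ⊕ Fin 1) (κ ⊕ Fin 1) ℝ := fromBlocks 1 Y 0 1
  have hX : X.det ^ 2 = 1 := by simp [X]
  have h1 : (s • onesM κ) * Y + cplBlock (fun i => - c i) 1 = 0 := by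
    ext i k
    fin_cases k
    have : ∀ i, Y i 0 = s * (c i - j / (Fintype.card κ + 1)) := fun i => hY i 0
    rw [Matrix.smul_mul, Matrix.add_apply, Matrix.smul_apply]
    have h2 : (onesM κ * Y) i 0 = (onesM κ *ᵥ (fun i => Y i 0)) i := by
      simp [Matrix.mul_apply, Matrix.mulVec, dotProduct]
    simp only [Fin.zero_eta, Fin.isValue, h2, onesM_mulVec, this, cplBlock, Matrix.of_apply,
      Matrix.zero_apply, ← Finset.mul_sum, Finset.sum_sub_distrib, ← hj]
    simp
    field_simp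
    linear_combination (c i * (Fintype.card κ + 1)) * hs
  have hT : (s • onesM κ)ᵀ = s • onesM κ := by
    rw [Matrix.transpose_smul]
    congr 1
    ext i k
    simp [onesM, Matrix.one_apply, eq_comm]
  have h3 : Yᵀ * (s • onesM κ) + (cplBlock (fun i => - c i) 1)ᵀ = 0 := by
    have := congrArg Matrix.transpose h1
    rw [Matrix.transpose_add, Matrix.transpose_mul, hT] at this
    simpa using this
  have h4 : (cplBlock (fun i => - c i) 1)ᵀ * Y + pathBlock η 0 x
      = Matrix.of fun _ _ => x - s * (j - j ^ 2 / (Fintype.card κ + 1)) := by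
    ext a b
    fin_cases a; fin_cases b
    simp [Matrix.mul_apply, cplBlock, hY, pathBlock]
    have : ∀ i, c i * (s * (c i - j / (Fintype.card κ + 1)))
        = s * c i - s * (j / (Fintype.card κ + 1)) * c i := by
      intro i
      linear_combination s * hc i
    simp only [this, Finset.sum_sub_distrib, ← Finset.mul_sum, ← hj]
    field_simp
    ring
  have hcg : Xᵀ * pathM (s • onesM κ) (fun i => - c i) η 0 x * X
      = fromBlocks (s • onesM κ) 0 0
      (Matrix.of fun _ _ => x - s * (j - j ^ 2 / (Fintype.card κ + 1)) :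
        Matrix (Fin 1) (Fin 1) ℝ) := by
    rw [Matrix.mul_assoc]
    simp only [X, pathM, Matrix.fromBlocks_transpose, Matrix.fromBlocks_multiply]
    simp only [Matrix.mul_one, Matrix.mul_zero, Matrix.one_mul, Matrix.zero_mul, add_zero,
      Matrix.transpose_one, Matrix.transpose_zero]
    rw [h1, h3, Matrix.mul_zero, zero_add, h4]
  apply Inv.of_congr X hX
  rw [hcg]
  exact h

/-- the positive case, with negative last vertex -/
theorem base_inv_one (c : κ → ℝ) (hc : ∀ i, c i ^ 2 = c i) (x η : ℝ)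
    (hneg : (Fintype.card κ + 1) * (x - ∑ i, c i) + (∑ i, c i) ^ 2 < 0) :
    Inv (pathM (onesM κ) (fun i => - c i) η 0 x)
      ((Fintype.card κ + 1) * (x - ∑ i, c i) + (∑ i, c i) ^ 2) (Fintype.card κ) 1 := by
  have hl : (0 : ℝ) < ((Fintype.card κ : ℝ) + 1) := by positivity
  have hE : x - (1 : ℝ) * ((∑ i, c i) - (∑ i, c i) ^ 2 / (Fintype.card κ + 1))
      = ((Fintype.card κ + 1) * (x - ∑ i, c i) + (∑ i, c i) ^ 2) / (Fintype.card κ + 1) := by
    field_simp
    ring
  have h0 := onesM_inv.fromBlocks (one_inv_neg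
    (x := x - (1 : ℝ) * ((∑ i, c i) - (∑ i, c i) ^ 2 / (Fintype.card κ + 1))) (by
      rw [hE]; exact div_neg_of_neg_of_pos hneg hl)) (n := κ)
  have h := base_inv (κ := κ) 1 (by norm_num) c hc x η (p := Fintype.card κ) (q := 1)
    (d := ((Fintype.card κ + 1) * (x - ∑ i, c i) + (∑ i, c i) ^ 2)) (by
      rw [one_smul]
      rw [add_zero, zero_add] at h0
      convert h0 using 1
      rw [hE]
      field_simp)
  simpa using h

/-- the negative definite case -/
theorem base_inv_neg (c : κ → ℝ) (hc : ∀ i, c i ^ 2 = c i) (x η : ℝ)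
    (hneg : (Fintype.card κ + 1) * (x + ∑ i, c i) - (∑ i, c i) ^ 2 < 0) :
    Inv (pathM (-onesM κ) (fun i => - c i) η 0 x)
      ((-1) ^ Fintype.card κ * ((Fintype.card κ + 1) * (x + ∑ i, c i) - (∑ i, c i) ^ 2))
      0 (Fintype.card κ + 1) := by
  have hl : (0 : ℝ) < ((Fintype.card κ : ℝ) + 1) := by positivity
  have hE : x - (-1 : ℝ) * ((∑ i, c i) - (∑ i, c i) ^ 2 / (Fintype.card κ + 1))
      = ((Fintype.card κ + 1) * (x + ∑ i, c i) - (∑ i, c i) ^ 2) / (Fintype.card κ + 1) := by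
    field_simp
    ring
  have h0 := neg_onesM_inv.fromBlocks (one_inv_neg
    (x := x - (-1 : ℝ) * ((∑ i, c i) - (∑ i, c i) ^ 2 / (Fintype.card κ + 1))) (by
      rw [hE]; exact div_neg_of_neg_of_pos hneg hl)) (n := κ)
  have h := base_inv (κ := κ) (-1) (by norm_num) c hc x η (p := 0) (q := Fintype.card κ + 1)
    (d := ((-1) ^ Fintype.card κ * ((Fintype.card κ + 1) * (x + ∑ i, c i) - (∑ i, c i) ^ 2))) (by
      rw [neg_one_smul]
      convert h0 using 1
      rw [hE]
      field_simp)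
  simpa using h

end H880R2.DetSig
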