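import Mathlib

/-!
# Closed braids, their Seifert matrices, determinant and signature (for MP_06cdda_gt)

By Alexander's theorem every knot is the closure of a braid.  A braid word of length `N` is given
by its letters `f : Fin N → ℕ × Bool`; the letter `f k = (i, b)` is the Artin generator
`σ_{i+1}` (a crossing between the strand positions `i` and `i+1`; we say that it lies *in column
`i`*) if `b = false`, and its inverse `σ_{i+1}⁻¹` if `b = true`.

Seifert's algorithm applied to the closed braid gives the surface `F` which consists of one disc
for each strand position and one half twisted band for each crossing, the band of a crossing in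
column `i` joining the discs `i` and `i+1`.  A cycle of `F` is an integral combination `∑ c k • k`
of the bands such that the coefficients of the bands in each column add up to `0`.  In these
coordinates the Seifert form `V(c, c') = lk(c, c'^+)` is `∑ c k * c' l * pairing f k l`, with the
numbers `pairing f k l` defined below.  (For two consecutive bands in a column this is the usual
`-1` or `+1` on the diagonal for two crossings of the same sign and `0` for opposite signs; compare
J. Collins, *An algorithm for computing the Seifert matrix of a link from a braid
representation*.)
-/

namespace H880R2.DetSig

open Matrix Module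

section words

variable {N : ℕ}

/-- The Seifert pairing of the bands `k` and `l` of the surface of a braid word: bands of one
column pair to `1` if `k < l`; a band pairs with itself to `1` if its crossing is negative (the
inverse of a generator) and to `0` otherwise; the pairing of a band with a later band in the next
column is `-1`; all other pairings are `0`. -/
def pairing (f : Fin N → ℕ × Bool) (k l : Fin N) : ℤ :=
  if k = l then (if (f k).2 then 1 else 0)
  else if k < l then
    (if (f l).1 = (f k).1 then 1 else if (f l).1 = (f k).1 + 1 then -1 else 0)
  else 0

/-- The last crossing in the same column as the crossing `k`. -/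
def lastIn (f : Fin N → ℕ × Bool) (k : Fin N) : Fin N :=
  (Finset.univ.filter fun l => (f l).1 = (f k).1).max' ⟨k, by simp⟩

/-- Index set for a basis of the first homology of the surface: the crossings which are not the
last one in their column.  The crossing `k` stands for the cycle `k - lastIn k`, which runs
through the band `k` and back through the band `lastIn k`. -/
def Loop (f : Fin N → ℕ × Bool) : Type := {k : Fin N // k < lastIn f k}

instance (f : Fin N → ℕ × Bool) : Fintype (Loop f) :=
  inferInstanceAs (Fintype {k : Fin N // k < lastIn f k})

instance (f : Fin N → ℕ × Bool) : DecidableEq (Loop f) :=
  inferInstanceAs (DecidableEq {k : Fin N // k < lastIn f k})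

/-- The Seifert matrix of the closed braid in the basis of the cycles `k - lastIn k`. -/
def seifert (f : Fin N → ℕ × Bool) : Matrix (Loop f) (Loop f) ℤ := fun x y =>
  pairing f x.1 y.1 - pairing f x.1 (lastIn f y.1) - pairing f (lastIn f x.1) y.1
    + pairing f (lastIn f x.1) (lastIn f y.1)

/-- The permutation of the strand positions defined by a braid word. -/
def perm (f : Fin N → ℕ × Bool) : Equiv.Perm ℕ :=
  (List.ofFn fun k => Equiv.swap (f k).1 ((f k).1 + 1)).prod

end words

/-- The largest dimension of a subspace of `ℝ^n` on which the quadratic form of `A` is positive
definite. -/
noncomputable def posIndex {n : Type*} [Fintype n] (A : Matrix n n ℝ) : ℕ :=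
  sSup {d | ∃ W : Submodule ℝ (n → ℝ), finrank ℝ W = d ∧ ∀ x ∈ W, x ≠ 0 → 0 < x ⬝ᵥ A *ᵥ x}

/-- The signature of a symmetric integral matrix: the largest dimension of a positive definite
subspace minus the largest dimension of a negative definite subspace. -/
noncomputable def signature {n : Type*} [Fintype n] (A : Matrix n n ℤ) : ℤ :=
  (posIndex (A.map (Int.cast : ℤ → ℝ)) : ℤ) - posIndex (-(A.map (Int.cast : ℤ → ℝ)))

/-- A braid word on `columns + 1` strands. -/
structure BraidWord where
  /-- the number of columns, one less than the number of strands -/
  columns : ℕ
  /-- the number of crossings -/
  length : ℕ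
  /-- the letters: column and sign -/
  letter : Fin length → ℕ × Bool
  /-- the columns are `0, …, columns - 1` -/
  letter_lt : ∀ k, (letter k).1 < columns

namespace BraidWord

/-- The closure of the braid is a knot: the strand positions `0, …, columns` are permuted in one
cycle. -/
def ClosureIsKnot (β : BraidWord) : Prop :=
  ∀ x ≤ β.columns, ∃ t : ℕ, (perm β.letter ^ t) 0 = x

/-- The Seifert matrix of the closure. -/
def seifertMatrix (β : BraidWord) : Matrix (Loop β.letter) (Loop β.letter) ℤ := seifert β.letter

/-- The determinant of the closure, `|det (V + Vᵀ)|`. -/
def det (β : BraidWord) : ℕ := (β.seifertMatrix + β.seifertMatrixᵀ).det.natAbs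

/-- The signature of the closure, the signature of `V + Vᵀ`. -/
noncomputable def sig (β : BraidWord) : ℤ := signature (β.seifertMatrix + β.seifertMatrixᵀ)

end BraidWord

end H880R2.DetSig
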