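import Pool.Agent.H880R2.DetSig.Inertia

/-!
# Connected sums
-/

namespace H880R2.DetSig

open Matrix

variable {N : ℕ}

theorem le_lastIn (f : Fin N → ℕ × Bool) (k : Fin N) : k ≤ lastIn f k :=
  Finset.le_max' _ _ (by simp)

theorem lastIn_col (f : Fin N → ℕ × Bool) (k : Fin N) : (f (lastIn f k)).1 = (f k).1 := by
  have := Finset.max'_mem (Finset.univ.filter fun l => (f l).1 = (f k).1) ⟨k, by simp⟩
  exact (Finset.mem_filter.1 this).2

theorem lastIn_eq (f : Fin N → ℕ × Bool) (k l : Fin N) (h1 : (f l).1 = (f k).1)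
    (h2 : ∀ l', l < l' → (f l').1 ≠ (f k).1) : lastIn f k = l := by
  apply le_antisymm
  · apply Finset.max'_le
    intro y hy
    by_contra hlt
    exact h2 y (not_le.1 hlt) (Finset.mem_filter.1 hy).2
  · exact Finset.le_max' _ _ (by simp [h1])

/-- the symmetrised Seifert matrix over the reals -/
noncomputable def symR (f : Fin N → ℕ × Bool) : Matrix (Loop f) (Loop f) ℝ :=
  (seifert f + (seifert f)ᵀ).map (Int.cast : ℤ → ℝ)

/-! ### connected sums -/

/-- the word of the connected sum: `f` uses the columns `< a`, and `g` is shifted by `a`. -/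
def csum {M N : ℕ} (a : ℕ) (f : Fin M → ℕ × Bool) (g : Fin N → ℕ × Bool) :
    Fin (M + N) → ℕ × Bool :=
  Fin.append f (fun k => ((g k).1 + a, (g k).2))

section finlemmas

variable {M N : ℕ}

theorem cA_lt (k l : Fin M) : Fin.castAdd N k < Fin.castAdd N l ↔ k < l := Iff.rfl
theorem cA_inj (k l : Fin M) : Fin.castAdd N k = Fin.castAdd N l ↔ k = l := by
  constructor
  · intro h
    have h' := congrArg Fin.val h
    simp only [Fin.val_castAdd] at h'
    exact Fin.ext h'
  · rintro rfl; rfl
theorem nA_lt (k l : Fin N) : Fin.natAdd M k < Fin.natAdd M l ↔ k < l := by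
  constructor
  · intro h
    have h' : M + k.val < M + l.val := h
    show k.val < l.val
    omega
  · intro h
    have h' : k.val < l.val := h
    show M + k.val < M + l.val
    omega
theorem nA_inj (k l : Fin N) : Fin.natAdd M k = Fin.natAdd M l ↔ k = l := by
  constructor
  · intro h
    have h' := congrArg Fin.val h
    simp only [Fin.val_natAdd] at h'
    exact Fin.ext (by omega)
  · rintro rfl; rfl
theorem cA_lt_nA (k : Fin M) (l : Fin N) : Fin.castAdd N k < Fin.natAdd M l := by
  show k.val < M + l.val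
  have := k.2
  omega
theorem cA_ne_nA (k : Fin M) (l : Fin N) : Fin.castAdd N k ≠ Fin.natAdd M l :=
  ne_of_lt (cA_lt_nA k l)
theorem nA_ne_cA (k : Fin M) (l : Fin N) : Fin.natAdd M l ≠ Fin.castAdd N k :=
  ne_of_gt (cA_lt_nA k l)
theorem nA_not_lt_cA (k : Fin M) (l : Fin N) : ¬ Fin.natAdd M l < Fin.castAdd N k :=
  not_lt.2 (le_of_lt (cA_lt_nA k l))

end finlemmas

section csum

variable {M N : ℕ} (a : ℕ) (f : Fin M → ℕ × Bool) (g : Fin N → ℕ × Bool)

@[simp] theorem csum_castAdd (k : Fin M) : csum a f g (Fin.castAdd N k) = f k := by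
  simp [csum]

@[simp] theorem csum_natAdd (k : Fin N) : csum a f g (Fin.natAdd M k) = ((g k).1 + a, (g k).2) := by
  simp [csum]

theorem pairing_ll (k l : Fin M) :
    pairing (csum a f g) (Fin.castAdd N k) (Fin.castAdd N l) = pairing f k l := by
  simp only [pairing, csum_castAdd, cA_lt, cA_inj]

theorem pairing_rr (k l : Fin N) :
    pairing (csum a f g) (Fin.natAdd M k) (Fin.natAdd M l) = pairing g k l := by
  have : (g l).1 + a = (g k).1 + a + 1 ↔ (g l).1 = (g k).1 + 1 := by omega
  simp only [pairing, csum_natAdd, nA_lt, nA_inj, this, add_left_inj]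

theorem pairing_rl (k : Fin N) (l : Fin M) :
    pairing (csum a f g) (Fin.natAdd M k) (Fin.castAdd N l) = 0 := by
  simp only [pairing, nA_ne_cA, nA_not_lt_cA, if_false]

theorem pairing_lr (hf : ∀ k, (f k).1 < a) (k : Fin M) (l : Fin N) :
    pairing (csum a f g) (Fin.castAdd N k) (Fin.natAdd M l)
      = if (f k).1 + 1 = a ∧ (g l).1 = 0 then -1 else 0 := by
  have hfk := hf k
  have h3 : ¬ ((g l).1 + a = (f k).1) := by omega
  have h4 : (g l).1 + a = (f k).1 + 1 ↔ ((f k).1 + 1 = a ∧ (g l).1 = 0) := by omega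
  simp only [pairing, cA_ne_nA, cA_lt_nA, csum_castAdd, csum_natAdd, h3, h4, if_false, if_true]

theorem lastIn_l (hf : ∀ k, (f k).1 < a) (k : Fin M) :
    lastIn (csum a f g) (Fin.castAdd N k) = Fin.castAdd N (lastIn f k) := by
  apply lastIn_eq
  · simp [lastIn_col]
  · intro l'
    refine Fin.addCases (fun l => ?_) (fun l => ?_) l'
    · intro hlt heq
      rw [csum_castAdd, csum_castAdd] at heq
      have h1 : lastIn f k < l := (cA_lt _ _).1 hlt
      have h2 : l ≤ lastIn f k := Finset.le_max' _ _ (by simp [heq])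
      exact absurd h1 (not_lt.2 h2)
    · intro _ heq
      rw [csum_castAdd, csum_natAdd] at heq
      have := hf k
      simp only at heq
      omega

theorem lastIn_r (hf : ∀ k, (f k).1 < a) (k : Fin N) :
    lastIn (csum a f g) (Fin.natAdd M k) = Fin.natAdd M (lastIn g k) := by
  apply lastIn_eq
  · simp [lastIn_col]
  · intro l'
    refine Fin.addCases (fun l => ?_) (fun l => ?_) l'
    · intro hlt heq
      exact absurd hlt (nA_not_lt_cA _ _)
    · intro hlt heq
      rw [csum_natAdd, csum_natAdd] at heq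
      have h1 : lastIn g k < l := (nA_lt _ _).1 hlt
      have h2 : l ≤ lastIn g k := Finset.le_max' _ _ (by simp; simpa using heq)
      exact absurd h1 (not_lt.2 h2)

/-- the loops of a connected sum -/
def loopSum (hf : ∀ k, (f k).1 < a) : Loop f ⊕ Loop g → Loop (csum a f g)
  | Sum.inl x => ⟨Fin.castAdd N x.1, by
      rw [lastIn_l a f g hf]; exact (cA_lt _ _).2 x.2⟩
  | Sum.inr x => ⟨Fin.natAdd M x.1, by
      rw [lastIn_r a f g hf]; exact (nA_lt _ _).2 x.2⟩

theorem loopSum_bijective (hf : ∀ k, (f k).1 < a) : Function.Bijective (loopSum a f g hf) := by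
  constructor
  · rintro (x | x) (y | y) hxy
    · have := congrArg (fun z => z.1.val) hxy
      simp only [loopSum, Fin.val_castAdd] at this
      exact congrArg Sum.inl (Subtype.ext (Fin.ext this))
    · have := congrArg (fun z => z.1.val) hxy
      simp only [loopSum, Fin.val_castAdd, Fin.val_natAdd] at this
      have hx := x.1.2
      omega
    · have := congrArg (fun z => z.1.val) hxy
      simp only [loopSum, Fin.val_castAdd, Fin.val_natAdd] at this
      have hy := y.1.2
      omega
    · have := congrArg (fun z => z.1.val) hxy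
      simp only [loopSum, Fin.val_natAdd] at this
      exact congrArg Sum.inr (Subtype.ext (Fin.ext (by omega)))
  · rintro ⟨z, hz⟩
    revert hz
    refine Fin.addCases (fun l => ?_) (fun l => ?_) z
    · intro hz
      refine ⟨Sum.inl ⟨l, ?_⟩, rfl⟩
      rw [lastIn_l a f g hf] at hz
      exact (cA_lt _ _).1 hz
    · intro hz
      refine ⟨Sum.inr ⟨l, ?_⟩, rfl⟩
      rw [lastIn_r a f g hf] at hz
      exact (nA_lt _ _).1 hz

theorem seifert_csum (hf : ∀ k, (f k).1 < a) (x y : Loop f ⊕ Loop g) :
    seifert (csum a f g) (loopSum a f g hf x) (loopSum a f g hf y)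
      = fromBlocks (seifert f) 0 0 (seifert g) x y := by
  rcases x with x | x <;> rcases y with y | y
  · simp only [seifert, loopSum, lastIn_l a f g hf, pairing_ll, fromBlocks_apply₁₁]
  · simp only [seifert, loopSum, lastIn_l a f g hf, lastIn_r a f g hf, pairing_lr a f g hf,
      lastIn_col, fromBlocks_apply₁₂, Matrix.zero_apply]
    ring
  · simp only [seifert, loopSum, lastIn_l a f g hf, lastIn_r a f g hf, pairing_rl,
      fromBlocks_apply₂₁, Matrix.zero_apply]
    ring
  · simp only [seifert, loopSum, lastIn_r a f g hf, pairing_rr, fromBlocks_apply₂₂]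

theorem symR_csum (hf : ∀ k, (f k).1 < a) {d d' : ℝ} {p q p' q' : ℕ} (h1 : Inv (symR f) d p q)
    (h2 : Inv (symR g) d' p' q') :
    Inv (symR (csum a f g)) (d * d') (p + p') (q + q') := by
  apply Inv.reindex (Equiv.ofBijective _ (loopSum_bijective a f g hf))
  have h3 : (symR (csum a f g)).submatrix (Equiv.ofBijective _ (loopSum_bijective a f g hf))
      (Equiv.ofBijective _ (loopSum_bijective a f g hf)) = fromBlocks (symR f) 0 0 (symR g) := by
    ext x y
    simp only [symR, Matrix.submatrix_apply, Matrix.map_apply, Matrix.add_apply,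
      Matrix.transpose_apply, Equiv.ofBijective_apply, seifert_csum]
    rcases x with x | x <;> rcases y with y | y <;> simp
  rw [h3]
  exact h1.fromBlocks h2

end csum

end H880R2.DetSig
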