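import Pool.Agent.H880R2.DetSig.Basic

/-!
# Inertia of real symmetric matrices (for MP_06cdda_gt)
-/

namespace H880R2.DetSig

open Matrix Module

variable {n m : Type*} [Fintype n] [DecidableEq n] [Fintype m] [DecidableEq m]

/-- `A` has a positive definite subspace of dimension `p`, a negative definite one of dimension
`q`, and `p + q` is the size of `A`. -/
def HasInertia (A : Matrix n n ℝ) (p q : ℕ) : Prop :=
  ∃ P Q : Submodule ℝ (n → ℝ), finrank ℝ P = p ∧ finrank ℝ Q = q ∧ p + q = Fintype.card n ∧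
    (∀ x ∈ P, x ≠ 0 → 0 < x ⬝ᵥ A *ᵥ x) ∧ (∀ x ∈ Q, x ≠ 0 → x ⬝ᵥ A *ᵥ x < 0)

omit [DecidableEq n] in
theorem HasInertia.neg {A : Matrix n n ℝ} {p q : ℕ} (h : HasInertia A p q) :
    HasInertia (-A) q p := by
  obtain ⟨P, Q, hP, hQ, hc, h1, h2⟩ := h
  refine ⟨Q, P, hQ, hP, by omega, ?_, ?_⟩
  · intro x hx hx0
    have := h2 x hx hx0
    rw [Matrix.neg_mulVec, dotProduct_neg]; linarith
  · intro x hx hx0
    have := h1 x hx hx0
    rw [Matrix.neg_mulVec, dotProduct_neg]; linarith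

omit [DecidableEq n] in
theorem HasInertia.posIndex_eq {A : Matrix n n ℝ} {p q : ℕ} (h : HasInertia A p q) :
    posIndex A = p := by
  obtain ⟨P, Q, hP, hQ, hc, h1, h2⟩ := h
  unfold posIndex
  have hbound : ∀ d ∈ {d | ∃ W : Submodule ℝ (n → ℝ), finrank ℝ W = d ∧
      ∀ x ∈ W, x ≠ 0 → 0 < x ⬝ᵥ A *ᵥ x}, d ≤ p := by
    rintro d ⟨W, hW, hpos⟩
    have hdisj : Disjoint W Q := by
      rw [Submodule.disjoint_def]
      intro x hxW hxQ
      by_contra hx0
      have a := hpos x hxW hx0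
      have b := h2 x hxQ hx0
      linarith
    have h3 := Submodule.finrank_add_finrank_le_of_disjoint hdisj
    rw [Module.finrank_fintype_fun_eq_card] at h3
    omega
  apply le_antisymm
  · exact csSup_le ⟨p, P, hP, h1⟩ hbound
  · exact le_csSup ⟨p, hbound⟩ ⟨P, hP, h1⟩

omit [DecidableEq n] in
theorem HasInertia.negIndex_eq {A : Matrix n n ℝ} {p q : ℕ} (h : HasInertia A p q) :
    posIndex (-A) = q := h.neg.posIndex_eq

/-- transport of inertia along an injective (in fact bijective) linear substitution -/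
theorem HasInertia.of_congr {A : Matrix n n ℝ} {B : Matrix m m ℝ} {p q : ℕ}
    (e : (m → ℝ) ≃ₗ[ℝ] (n → ℝ))
    (he : ∀ x, e x ⬝ᵥ A *ᵥ e x = x ⬝ᵥ B *ᵥ x) (h : HasInertia B p q) : HasInertia A p q := by
  obtain ⟨P, Q, hP, hQ, hc, h1, h2⟩ := h
  refine ⟨P.map e.toLinearMap, Q.map e.toLinearMap, ?_, ?_, ?_, ?_, ?_⟩
  · rw [← hP]; exact LinearEquiv.finrank_map_eq e P
  · rw [← hQ]; exact LinearEquiv.finrank_map_eq e Q
  · have := LinearEquiv.finrank_eq e
    rw [Module.finrank_fintype_fun_eq_card, Module.finrank_fintype_fun_eq_card] at this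
    omega
  · rintro _ ⟨x, hx, rfl⟩ hx0
    have : x ≠ 0 := by rintro rfl; exact hx0 (map_zero _)
    have h3 := h1 x hx this
    simpa [he] using h3
  · rintro _ ⟨x, hx, rfl⟩ hx0
    have : x ≠ 0 := by rintro rfl; exact hx0 (map_zero _)
    have h3 := h2 x hx this
    simpa [he] using h3

omit [DecidableEq n] [DecidableEq m] in
theorem quad_fromBlocks (A : Matrix n n ℝ) (B : Matrix m m ℝ) (x : n → ℝ) (y : m → ℝ) :
    (Sum.elim x y) ⬝ᵥ (fromBlocks A 0 0 B) *ᵥ (Sum.elim x y) = x ⬝ᵥ A *ᵥ x + y ⬝ᵥ B *ᵥ y := by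
  rw [fromBlocks_mulVec]
  simp [dotProduct_block]

theorem finrank_prod' {V W : Type*} [AddCommGroup V] [Module ℝ V] [AddCommGroup W] [Module ℝ W]
    [FiniteDimensional ℝ V] [FiniteDimensional ℝ W] (U : Submodule ℝ V) (U' : Submodule ℝ W) :
    finrank ℝ (U.prod U') = finrank ℝ U + finrank ℝ U' := by
  have h : LinearMap.range (LinearMap.prodMap U.subtype U'.subtype) = U.prod U' := by
    rw [LinearMap.range_prodMap]; simp
  rw [← h, LinearMap.finrank_range_of_inj, Module.finrank_prod]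
  intro a b hab
  have := congrArg Prod.fst hab
  have h2 := congrArg Prod.snd hab
  simp only [LinearMap.prodMap_apply, Submodule.subtype_apply] at this h2
  exact Prod.ext (Subtype.ext this) (Subtype.ext h2)

omit [DecidableEq n] [DecidableEq m] in
theorem HasInertia.fromBlocks {A : Matrix n n ℝ} {B : Matrix m m ℝ} {p q p' q' : ℕ}
    (hA : HasInertia A p q) (hB : HasInertia B p' q') :
    HasInertia (Matrix.fromBlocks A 0 0 B) (p + p') (q + q') := by
  obtain ⟨P, Q, hP, hQ, hc, h1, h2⟩ := hA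
  obtain ⟨P', Q', hP', hQ', hc', h1', h2'⟩ := hB
  let E := (LinearEquiv.sumArrowLequivProdArrow n m ℝ ℝ).symm
  have hE : ∀ x y, E (x, y) = Sum.elim x y := by
    intro x y
    ext (i | i) <;> simp [E]
  have hdim : ∀ (U : Submodule ℝ (n → ℝ)) (U' : Submodule ℝ (m → ℝ)),
      finrank ℝ ((U.prod U').map E.toLinearMap) = finrank ℝ U + finrank ℝ U' := by
    intro U U'
    rw [← finrank_prod']
    exact LinearEquiv.finrank_map_eq E (U.prod U')
  refine ⟨(P.prod P').map E.toLinearMap, (Q.prod Q').map E.toLinearMap, ?_, ?_, ?_, ?_, ?_⟩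
  · rw [hdim, hP, hP']
  · rw [hdim, hQ, hQ']
  · rw [Fintype.card_sum]; omega
  · rintro _ ⟨⟨x, y⟩, ⟨hx, hy⟩, rfl⟩ hne
    simp only [LinearEquiv.coe_coe, hE] at hne ⊢
    rw [quad_fromBlocks]
    by_cases hx0 : x = 0
    · have hy0 : y ≠ 0 := by
        rintro rfl
        subst hx0
        apply hne; ext (i | i) <;> simp
      have := h1' y hy hy0
      subst hx0
      simpa using this
    · have a := h1 x hx hx0
      by_cases hy0 : y = 0
      · subst hy0; simpa using a
      · have b := h1' y hy hy0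
        linarith
  · rintro _ ⟨⟨x, y⟩, ⟨hx, hy⟩, rfl⟩ hne
    simp only [LinearEquiv.coe_coe, hE] at hne ⊢
    rw [quad_fromBlocks]
    by_cases hx0 : x = 0
    · have hy0 : y ≠ 0 := by
        rintro rfl
        subst hx0
        apply hne; ext (i | i) <;> simp
      have := h2' y hy hy0
      subst hx0
      simpa using this
    · have a := h2 x hx hx0
      by_cases hy0 : y = 0
      · subst hy0; simpa using a
      · have b := h2' y hy hy0
        linarith

/-- `A` has determinant `d` and inertia `(p, q)`. -/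
def Inv (A : Matrix n n ℝ) (d : ℝ) (p q : ℕ) : Prop := A.det = d ∧ HasInertia A p q

theorem Inv.fromBlocks {A : Matrix n n ℝ} {B : Matrix m m ℝ} {d d' : ℝ} {p q p' q' : ℕ}
    (hA : Inv A d p q) (hB : Inv B d' p' q') :
    Inv (Matrix.fromBlocks A 0 0 B) (d * d') (p + p') (q + q') := by
  refine ⟨?_, hA.2.fromBlocks hB.2⟩
  rw [Matrix.det_fromBlocks_zero₂₁, hA.1, hB.1]

/-- congruence by a matrix with determinant of square one -/
theorem Inv.of_congr {A : Matrix n n ℝ} (X : Matrix n n ℝ) (hX : X.det ^ 2 = 1) {d : ℝ} {p q : ℕ}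
    (h : Inv (Xᵀ * A * X) d p q) : Inv A d p q := by
  have hX0 : X.det ≠ 0 := by
    intro h0; rw [h0] at hX; norm_num at hX
  refine ⟨?_, ?_⟩
  · have := h.1
    rw [Matrix.det_mul, Matrix.det_mul, Matrix.det_transpose] at this
    rw [← this]; linear_combination (-A.det) * hX
  · let u : IsUnit X := (Matrix.isUnit_iff_isUnit_det _).2 (isUnit_iff_ne_zero.2 hX0)
    refine HasInertia.of_congr (Matrix.toLinearEquiv' X (Matrix.invertibleOfIsUnitDet X
      (isUnit_iff_ne_zero.2 hX0))) ?_ h.2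
    intro x
    have hx : (Matrix.toLinearEquiv' X (Matrix.invertibleOfIsUnitDet X
      (isUnit_iff_ne_zero.2 hX0))) x = X *ᵥ x := by
      simp [Matrix.toLinearEquiv']
    rw [hx, ← Matrix.mulVec_mulVec, ← Matrix.mulVec_mulVec, Matrix.dotProduct_mulVec x,
      Matrix.vecMul_transpose]

theorem Inv.reindex {A : Matrix n n ℝ} (e : m ≃ n) {d : ℝ} {p q : ℕ}
    (h : Inv (A.submatrix e e) d p q) : Inv A d p q := by
  refine ⟨?_, ?_⟩
  · rw [← h.1, Matrix.det_submatrix_equiv_self]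
  · refine HasInertia.of_congr (LinearEquiv.funCongrLeft ℝ ℝ e.symm) ?_ h.2
    intro x
    have h1 : A *ᵥ ((LinearEquiv.funCongrLeft ℝ ℝ e.symm) x)
        = (LinearEquiv.funCongrLeft ℝ ℝ e.symm) ((A.submatrix e e) *ᵥ x) := by
      ext i
      simp only [Matrix.mulVec, dotProduct, LinearEquiv.funCongrLeft_apply, LinearMap.funLeft_apply,
        Matrix.submatrix_apply, Equiv.apply_symm_apply]
      rw [← Equiv.sum_comp e]
      simp
    rw [h1]
    simp only [dotProduct, LinearEquiv.funCongrLeft_apply, LinearMap.funLeft_apply]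
    rw [← Equiv.sum_comp e]
    simp

theorem Inv.neg {A : Matrix n n ℝ} {d : ℝ} {p q : ℕ} (h : Inv A d p q) :
    Inv (-A) ((-1) ^ (p + q) * d) q p := by
  refine ⟨?_, h.2.neg⟩
  rw [Matrix.det_neg, h.1]
  obtain ⟨P, Q, hP, hQ, hc, -, -⟩ := h.2
  rw [hc]

end H880R2.DetSig
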