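import Pool.Agent.H880R2.DetSig.Inertia

namespace H880R2.DetSig

open Matrix Module

variable {n : Type*} [Fintype n] [DecidableEq n]

/-- the hyperbolic block -/
def hyp (b : ℝ) : Matrix (Fin 2) (Fin 2) ℝ := !![0, -1; -1, b]

theorem hyp_inv (b : ℝ) : Inv (hyp b) (-1) 1 1 := by
  refine ⟨by simp [hyp, Matrix.det_fin_two], ?_⟩
  have hne : ∀ t : ℝ, (![t, 1] : Fin 2 → ℝ) ≠ 0 := by
    intro t h
    have := congrFun h 1
    simp at this
  have hq : ∀ c t : ℝ, (c • (![t, 1] : Fin 2 → ℝ)) ⬝ᵥ hyp b *ᵥ (c • (![t, 1] : Fin 2 → ℝ))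
      = c ^ 2 * (b - 2 * t) := by
    intro c t
    simp [hyp, Matrix.mulVec, dotProduct, Fin.sum_univ_two]
    ring
  refine ⟨Submodule.span ℝ {![(b - 1) / 2, 1]}, Submodule.span ℝ {![(b + 1) / 2, 1]},
    finrank_span_singleton (hne _), finrank_span_singleton (hne _), by simp, ?_, ?_⟩
  · intro x hx hx0
    obtain ⟨c, rfl⟩ := Submodule.mem_span_singleton.1 hx
    have hc : c ≠ 0 := by rintro rfl; simp at hx0
    rw [hq]
    have : 0 < c ^ 2 := by positivity
    linarith
  · intro x hx hx0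
    obtain ⟨c, rfl⟩ := Submodule.mem_span_singleton.1 hx
    have hc : c ≠ 0 := by rintro rfl; simp at hx0
    rw [hq]
    have : 0 < c ^ 2 := by positivity
    linarith

/-- coupling of the vertex `v` to the first vertex of a hyperbolic block -/
def cpl (v : n) : Matrix n (Fin 2) ℝ := fun i k => if i = v ∧ k = 0 then -1 else 0

/-- plumbing a zero weighted vertex and a vertex of weight `b` onto the vertex `v` amounts to
increasing the weight of `v` by `b` and adding a hyperbolic plane -/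
theorem ext_inv (S : Matrix n n ℝ) (v : n) (b : ℝ) {d : ℝ} {p q : ℕ}
    (h : Inv (S + Matrix.single v v b) d p q) :
    Inv (fromBlocks S (cpl v) (cpl v)ᵀ (hyp b)) (-d) (p + 1) (q + 1) := by
  obtain ⟨Z, hZ⟩ : ∃ Z : Matrix (Fin 2) n ℝ,
      ∀ k i, Z k i = if i = v then (if k = 0 then -b else -1) else 0 := ⟨_, fun _ _ => rfl⟩
  let X : Matrix (n ⊕ Fin 2) (n ⊕ Fin 2) ℝ := fromBlocks 1 0 Z 1
  have hX : X.det ^ 2 = 1 := by
    simp [X, Matrix.det_fromBlocks_zero₁₂]
  have h1 : cpl v + Zᵀ * hyp b = 0 := by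
    ext i k
    fin_cases k <;>
    by_cases hi : i = v <;>
      simp [cpl, hZ, hyp, Matrix.mul_apply, Fin.sum_univ_two, hi, Matrix.transpose_apply]
  have h2 : cpl v * Z = Matrix.single v v b := by
    ext i k
    rw [Matrix.mul_apply, Fin.sum_univ_two, Matrix.single_apply, hZ, hZ]
    by_cases hi : i = v
    · subst hi
      by_cases hk : k = i
      · subst hk; simp [cpl]
      · simp [cpl, hk, Ne.symm hk]
    · simp [cpl, hi, Ne.symm hi]
  have hhT : (hyp b)ᵀ = hyp b := by
    ext i k; fin_cases i <;> fin_cases k <;> simp [hyp]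
  have h3 : (cpl v)ᵀ + hyp b * Z = 0 := by
    have := congrArg Matrix.transpose h1
    rw [Matrix.transpose_add, Matrix.transpose_mul, hhT] at this
    simpa using this
  have hc : Xᵀ * fromBlocks S (cpl v) (cpl v)ᵀ (hyp b) * X
      = fromBlocks (S + Matrix.single v v b) 0 0 (hyp b) := by
    rw [Matrix.mul_assoc]
    simp only [X, Matrix.fromBlocks_transpose, Matrix.fromBlocks_multiply]
    simp only [Matrix.mul_one, Matrix.mul_zero, Matrix.one_mul, Matrix.zero_mul, add_zero,
      zero_add, Matrix.transpose_one, Matrix.transpose_zero]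
    rw [h3, Matrix.mul_zero, add_zero, h2, h1]
  apply Inv.of_congr X hX
  rw [hc]
  have := h.fromBlocks (hyp_inv b)
  convert this using 1
  ring

variable {κ : Type*} [Fintype κ] [DecidableEq κ]

/-- the path part: weights `2η, 0, 2η, 0, …, 2η, 0, b`, all couplings `-1` -/
def pathBlock (η : ℝ) (r : ℕ) (b : ℝ) : Matrix (Fin (2 * r + 1)) (Fin (2 * r + 1)) ℝ :=
  Matrix.of fun k l =>
    if k = l then (if k.val = 2 * r then b else if k.val % 2 = 0 then 2 * η else 0)
    else if k.val + 1 = l.val ∨ l.val + 1 = k.val then -1 else 0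

/-- the coupling of the first block with the path -/
def cplBlock (u : κ → ℝ) (m : ℕ) : Matrix κ (Fin m) ℝ :=
  Matrix.of fun i k => if k.val = 0 then u i else 0

/-- a matrix `S₀` with a path attached along the vector `u` -/
def pathM (S₀ : Matrix κ κ ℝ) (u : κ → ℝ) (η : ℝ) (r : ℕ) (b : ℝ) :
    Matrix (κ ⊕ Fin (2 * r + 1)) (κ ⊕ Fin (2 * r + 1)) ℝ :=
  fromBlocks S₀ (cplBlock u _) (cplBlock u _)ᵀ (pathBlock η r b)

omit [Fintype κ] in
theorem pathM_add_single (S₀ : Matrix κ κ ℝ) (u : κ → ℝ) (η : ℝ) (r : ℕ) (b c : ℝ) :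
    pathM S₀ u η r b + Matrix.single (Sum.inr (Fin.last (2 * r))) (Sum.inr (Fin.last (2 * r))) c
      = pathM S₀ u η r (b + c) := by
  ext i j
  rcases i with i | i <;> rcases j with j | j
  · simp [pathM, Matrix.single_apply]
  · simp [pathM, Matrix.single_apply]
  · simp [pathM, Matrix.single_apply]
  · simp only [pathM, Matrix.add_apply, Matrix.fromBlocks_apply₂₂, Matrix.single_apply, pathBlock,
      Matrix.of_apply, Sum.inr.injEq]
    by_cases hij : i = j
    · subst hij
      by_cases hi : i = Fin.last (2 * r)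
      · subst hi; simp
      · have : i.val ≠ 2 * r := fun h => hi (Fin.ext h)
        simp [this, Ne.symm hi]
    · have : ¬ (Fin.last (2 * r) = i ∧ Fin.last (2 * r) = j) := by
        rintro ⟨rfl, rfl⟩; exact hij rfl
      simp [hij, this]

/-- reindexing of the last two path vertices -/
def peel (κ : Type*) (r : ℕ) : (κ ⊕ Fin (2 * r + 1)) ⊕ Fin 2 ≃ κ ⊕ Fin (2 * (r + 1) + 1) :=
  (Equiv.sumAssoc _ _ _).trans (Equiv.sumCongr (Equiv.refl κ)
    (finSumFinEquiv.trans (finCongr (by ring))))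

theorem pathM_succ (S₀ : Matrix κ κ ℝ) (u : κ → ℝ) (η : ℝ) (r : ℕ) (b : ℝ) :
    (pathM S₀ u η (r + 1) b).submatrix (peel κ r) (peel κ r)
      = fromBlocks (pathM S₀ u η r (2 * η)) (cpl (Sum.inr (Fin.last (2 * r))))
        (cpl (Sum.inr (Fin.last (2 * r))))ᵀ (hyp b) := by
  ext i j
  rcases i with (i | i) | i <;> rcases j with (j | j) | j
  · simp [pathM, peel]
  · simp [pathM, peel, cplBlock, -Fin.val_eq_zero_iff]
  · fin_cases j <;> simp [pathM, peel, cplBlock, cpl, -Fin.val_eq_zero_iff]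
  · simp [pathM, peel, cplBlock, -Fin.val_eq_zero_iff]
  · have h1 : i.val < 2 * r + 1 := i.2
    have h2 : ¬ (i.val = 2 * (r + 1)) := by omega
    by_cases hij : i = j
    · subst hij
      by_cases h3 : i.val = 2 * r
      · simp [pathM, peel, pathBlock, h3]
      · simp [pathM, peel, pathBlock, h2, h3]
    · have : i.val ≠ j.val := fun h => hij (Fin.ext h)
      simp [pathM, peel, pathBlock, Fin.ext_iff, this]
  · have h1 : i.val < 2 * r + 1 := i.2
    fin_cases j
    · by_cases h2 : i.val = 2 * r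
      · simp [pathM, peel, pathBlock, Fin.ext_iff, cpl, h2]
      · have h3 : ¬ (i.val = 2 * r + 1) := by omega
        have h4 : ¬ (2 * r + 1 + 1 = i.val) := by omega
        simp [pathM, peel, pathBlock, Fin.ext_iff, cpl, h2, h3, h4]
    · have h3 : ¬ (i.val = 2 * r + 1 + 1) := by omega
      have h4 : ¬ (2 * r + 1 + 1 + 1 = i.val) := by omega
      have h5 : ¬ (i.val = 2 * r + 1) := by omega
      simp [pathM, peel, pathBlock, Fin.ext_iff, cpl, h3, h4, h5]
  · fin_cases i <;> simp [pathM, peel, cplBlock, cpl, -Fin.val_eq_zero_iff]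
  · have h1 : j.val < 2 * r + 1 := j.2
    fin_cases i
    · by_cases h2 : j.val = 2 * r
      · simp [pathM, peel, pathBlock, Fin.ext_iff, cpl, h2]
      · have h3 : ¬ (2 * r + 1 = j.val) := by omega
        have h4 : ¬ (2 * r + 1 + 1 = j.val) := by omega
        simp [pathM, peel, pathBlock, Fin.ext_iff, cpl, h2, h3, h4]
    · have h3 : ¬ (2 * r + 1 + 1 = j.val) := by omega
      have h4 : ¬ (2 * r + 1 + 1 + 1 = j.val) := by omega
      have h5 : ¬ (j.val = 2 * r + 1) := by omega
      simp [pathM, peel, pathBlock, Fin.ext_iff, cpl, h3, h4, h5]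
  · have h6 : ¬ ((2 * r + 1) % 2 = 0) := by omega
    have h7 : ¬ (2 * r + 1 = 2 * (r + 1)) := by omega
    have h8 : 2 * r + 1 + 1 = 2 * (r + 1) := by omega
    have h9 : ¬ (2 * (r + 1) = 2 * r + 1) := by omega
    fin_cases i <;> fin_cases j <;>
      simp [pathM, peel, pathBlock, Fin.ext_iff, hyp, h6, h7, h8, h9]

theorem path_inv (S₀ : Matrix κ κ ℝ) (u : κ → ℝ) (η : ℝ) {d : ℝ} {p q : ℕ} (r : ℕ) :
    ∀ b : ℝ, Inv (pathM S₀ u η 0 (2 * η * r + b)) d p q →
      Inv (pathM S₀ u η r b) ((-1) ^ r * d) (p + r) (q + r) := by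
  induction r with
  | zero => intro b h; simpa using h
  | succ r ih =>
    intro b h
    apply Inv.reindex (peel κ r)
    rw [pathM_succ]
    have h1 := ih (2 * η + b) (by
      convert h using 2
      push_cast; ring)
    rw [← pathM_add_single] at h1
    have := ext_inv _ _ _ h1
    rw [← add_assoc, ← add_assoc, pow_succ]
    convert this using 1
    ring

end H880R2.DetSig
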