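import Pool.Agent.H880R2.DetSig.Pieces

/-!
# The closures are knots
-/

namespace H880R2.DetSig

open Equiv

theorem papply_inv (π : Perm ℕ) (x : ℕ) : π (π⁻¹ x) = x := π.apply_symm_apply x

/-- `π` permutes the interval `[a, b]` in one cycle and fixes everything else -/
def FC (a b : ℕ) (π : Perm ℕ) : Prop :=
  (∀ x, x < a ∨ b < x → π x = x) ∧
    ∀ x y, a ≤ x → x ≤ b → a ≤ y → y ≤ b → ∃ t : ℕ, (π ^ t) x = y

theorem FC.of_base {a b : ℕ} {π : Perm ℕ} (hfix : ∀ x, x < a ∨ b < x → π x = x) (o : ℕ)
    (ha : a ≤ o) (hb : o ≤ b) (h : ∀ x, a ≤ x → x ≤ b → ∃ t : ℕ, (π ^ t) o = x) : FC a b π := by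
  refine ⟨hfix, ?_⟩
  have hinv : a ≤ π⁻¹ o ∧ π⁻¹ o ≤ b := by
    by_contra hcon
    have h1 : π⁻¹ o < a ∨ b < π⁻¹ o := by omega
    have h2 := hfix _ h1
    rw [papply_inv] at h2
    omega
  obtain ⟨t0, ht0⟩ := h _ hinv.1 hinv.2
  have hT : (π ^ (t0 + 1)) o = o := by
    rw [pow_succ', Perm.mul_apply, ht0, papply_inv]
  have hTm : ∀ m : ℕ, (π ^ ((t0 + 1) * m)) o = o := by
    intro m
    induction m with
    | zero => simp
    | succ m ih => rw [Nat.mul_succ, pow_add, Perm.mul_apply, hT, ih]
  intro x y hx1 hx2 hy1 hy2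
  obtain ⟨s, hs⟩ := h x hx1 hx2
  obtain ⟨u, hu⟩ := h y hy1 hy2
  refine ⟨(t0 + 1) * s - s + u, ?_⟩
  rw [← hs, ← Perm.mul_apply, ← pow_add]
  have h3 : (t0 + 1) * s - s + u + s = u + (t0 + 1) * s := by
    have : s ≤ (t0 + 1) * s := Nat.le_mul_of_pos_left s (by omega)
    omega
  rw [h3, pow_add, Perm.mul_apply, hTm, hu]

theorem FC.maps {a b : ℕ} {π : Perm ℕ} (h : FC a b π) {x : ℕ} (h1 : a ≤ x) (h2 : x ≤ b) :
    a ≤ π x ∧ π x ≤ b := by
  by_contra hcon
  have h3 : π x < a ∨ b < π x := by omega
  have h4 := h.1 _ h3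
  have := π.injective h4
  omega

theorem FC.maps_pow {a b : ℕ} {π : Perm ℕ} (h : FC a b π) {x : ℕ} (h1 : a ≤ x) (h2 : x ≤ b)
    (t : ℕ) : a ≤ (π ^ t) x ∧ (π ^ t) x ≤ b := by
  induction t with
  | zero => exact ⟨h1, h2⟩
  | succ t ih =>
    rw [pow_succ', Perm.mul_apply]
    exact h.maps ih.1 ih.2

theorem FC.mul {a b c : ℕ} {α β : Perm ℕ} (hab : a ≤ b) (hbc : b ≤ c) (hα : FC a b α)
    (hβ : FC b c β) : FC a c (α * β) := by
  -- chain along `β`
  have chainβ : ∀ t : ℕ, (∀ s, 1 ≤ s → s ≤ t → (β ^ s) b ≠ b) → ((α * β) ^ t) b = (β ^ t) b := by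
    intro t
    induction t with
    | zero => intro _; simp
    | succ t ih =>
      intro hs
      have h1 := ih (fun s hs1 hs2 => hs s hs1 (by omega))
      rw [pow_succ', Perm.mul_apply, h1, Perm.mul_apply, ← Perm.mul_apply β, ← pow_succ']
      apply hα.1
      right
      have h2 := hβ.maps_pow le_rfl hbc (t + 1)
      have h3 := hs (t + 1) (by omega) le_rfl
      omega
  -- the first return time
  have hex : ∃ K : ℕ, 1 ≤ K ∧ (β ^ K) b = b := by
    have h1 := hβ.maps le_rfl hbc
    obtain ⟨t, ht⟩ := hβ.2 (β b) b h1.1 h1.2 le_rfl hbc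
    exact ⟨t + 1, by omega, by rw [pow_succ, Perm.mul_apply, ht]⟩
  classical
  obtain ⟨hK1, hK2⟩ := Nat.find_spec hex
  set K := Nat.find hex with hKdef
  have hKmin : ∀ s, 1 ≤ s → s < K → (β ^ s) b ≠ b := by
    intro s hs1 hs2 hcon
    exact Nat.find_min hex hs2 ⟨hs1, hcon⟩
  have hgK : ((α * β) ^ K) b = α b := by
    obtain ⟨K', hK'⟩ : ∃ K', K = K' + 1 := ⟨K - 1, by omega⟩
    rw [hK', pow_succ', Perm.mul_apply, chainβ K' (fun s hs1 hs2 => hKmin s hs1 (by omega)),
      Perm.mul_apply, ← Perm.mul_apply β, ← pow_succ', ← hK', hK2]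
  have chainα : ∀ t : ℕ, (∀ s, 1 ≤ s → s ≤ t → (α ^ s) b ≠ b) →
      ((α * β) ^ (K + t)) b = (α ^ (t + 1)) b := by
    intro t
    induction t with
    | zero => intro _; simpa using hgK
    | succ t ih =>
      intro hs
      have h1 := ih (fun s hs1 hs2 => hs s hs1 (by omega))
      rw [← add_assoc, pow_succ', Perm.mul_apply, h1, Perm.mul_apply]
      have h2 := hα.maps_pow hab le_rfl (t + 1)
      have h3 := hs (t + 1) (by omega) le_rfl
      rw [hβ.1 _ (Or.inl (by omega)), ← Perm.mul_apply, ← pow_succ']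
  apply FC.of_base (o := b) ?_ hab hbc
  · intro x hx1 hx2
    by_cases hxb : x = b
    · exact ⟨0, by simp [hxb]⟩
    by_cases hlt : x < b
    · have hex2 : ∃ t : ℕ, (α ^ t) b = x := hα.2 b x hab le_rfl hx1 (by omega)
      have hs := Nat.find_spec hex2
      set t := Nat.find hex2 with htdef
      have ht0 : t ≠ 0 := by
        intro h0; rw [h0] at hs; simp at hs; exact hxb hs.symm
      have hmin : ∀ s, 1 ≤ s → s ≤ t - 1 → (α ^ s) b ≠ b := by
        intro s hs1 hs2 hcon
        have : (α ^ (t - s)) b = x := by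
          have h5 : (α ^ (t - s)) ((α ^ s) b) = x := by
            rw [← Perm.mul_apply, ← pow_add]
            have : t - s + s = t := by omega
            rw [this]; exact hs
          rwa [hcon] at h5
        exact Nat.find_min hex2 (m := t - s) (by omega) this
      refine ⟨K + (t - 1), ?_⟩
      rw [chainα (t - 1) hmin]
      have : t - 1 + 1 = t := by omega
      rw [this]; exact hs
    · have hgt : b < x := by omega
      have hex2 : ∃ t : ℕ, (β ^ t) b = x := hβ.2 b x le_rfl hbc (by omega) hx2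
      have hs := Nat.find_spec hex2
      set t := Nat.find hex2 with htdef
      have hmin : ∀ s, 1 ≤ s → s ≤ t → (β ^ s) b ≠ b := by
        intro s hs1 hs2 hcon
        have : (β ^ (t - s)) b = x := by
          have h5 : (β ^ (t - s)) ((β ^ s) b) = x := by
            rw [← Perm.mul_apply, ← pow_add]
            have : t - s + s = t := by omega
            rw [this]; exact hs
          rwa [hcon] at h5
        exact Nat.find_min hex2 (m := t - s) (by omega) this
      exact ⟨t, by rw [chainβ t hmin]; exact hs⟩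
  · intro x hx
    rw [Perm.mul_apply]
    rcases hx with hx | hx
    · rw [hβ.1 x (Or.inl (by omega)), hα.1 x (Or.inl hx)]
    · rw [hβ.1 x (Or.inr hx), hα.1 x (Or.inr (by omega))]

/-- permutation of a list of columns -/
def permL (l : List ℕ) : Perm ℕ := (l.map fun i => Equiv.swap i (i + 1)).prod

theorem permL_append (l l' : List ℕ) : permL (l ++ l') = permL l * permL l' := by
  simp [permL]

theorem permL_cons (i : ℕ) (l : List ℕ) : permL (i :: l) = Equiv.swap i (i + 1) * permL l := by
  simp [permL]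

theorem perm_eq {N : ℕ} (f : Fin N → ℕ × Bool) : perm f = permL (List.ofFn fun k => (f k).1) := by
  simp [perm, permL, List.map_ofFn, Function.comp_def]

theorem permL_shift (a : ℕ) (l : List ℕ) (x : ℕ) :
    permL (l.map (· + a)) (x + a) = permL l x + a := by
  induction l generalizing x with
  | nil => simp [permL]
  | cons i l ih =>
    rw [List.map_cons, permL_cons, permL_cons, Perm.mul_apply, Perm.mul_apply, ih]
    simp only [Equiv.swap_apply_def]
    split_ifs <;> omega

theorem permL_shift_lt (a : ℕ) (l : List ℕ) (x : ℕ) (hx : x < a) :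
    permL (l.map (· + a)) x = x := by
  induction l with
  | nil => simp [permL]
  | cons i l ih =>
    rw [List.map_cons, permL_cons, Perm.mul_apply, ih]
    simp only [Equiv.swap_apply_def]
    split_ifs <;> omega

theorem FC.shift {b : ℕ} (a : ℕ) {l : List ℕ} (h : FC 0 b (permL l)) :
    FC a (a + b) (permL (l.map (· + a))) := by
  refine ⟨?_, ?_⟩
  · rintro x (hx | hx)
    · exact permL_shift_lt a l x hx
    · obtain ⟨y, rfl⟩ : ∃ y, x = y + a := ⟨x - a, by omega⟩
      rw [permL_shift, h.1 y (Or.inr (by omega))]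
  · intro x y hx1 hx2 hy1 hy2
    obtain ⟨x', rfl⟩ : ∃ y, x = y + a := ⟨x - a, by omega⟩
    obtain ⟨y', rfl⟩ : ∃ z, y = z + a := ⟨y - a, by omega⟩
    obtain ⟨t, ht⟩ := h.2 x' y' (by omega) (by omega) (by omega) (by omega)
    refine ⟨t, ?_⟩
    have : ∀ t : ℕ, ∀ z, (permL (l.map (· + a)) ^ t) (z + a) = (permL l ^ t) z + a := by
      intro t
      induction t with
      | zero => intro z; simp
      | succ t ih =>
        intro z
        rw [pow_succ, Perm.mul_apply, permL_shift, ih, pow_succ, Perm.mul_apply]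
    rw [this, ht]

theorem perm_csum {M N : ℕ} (a b : ℕ) (f : Fin M → ℕ × Bool) (g : Fin N → ℕ × Bool)
    (hf : FC 0 a (perm f)) (hg : FC 0 b (perm g)) : FC 0 (a + b) (perm (csum a f g)) := by
  have h1 : perm (csum a f g) = perm f * permL ((List.ofFn fun k => (g k).1).map (· + a)) := by
    rw [perm_eq, perm_eq, ← permL_append]
    congr 1
    rw [List.map_ofFn, ← List.ofFn_fin_append]
    congr 1
    ext k
    refine Fin.addCases (fun i => ?_) (fun i => ?_) k <;> simp [csum]
  rw [h1]
  rw [perm_eq g] at hg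
  exact FC.mul (Nat.zero_le _) (by omega) hf (hg.shift a)

theorem permL_range (m x : ℕ) :
    permL (List.range m) x = if x < m then x + 1 else if x = m then 0 else x := by
  induction m generalizing x with
  | zero => by_cases hx : x = 0 <;> simp [permL, hx]
  | succ m ih =>
    rw [List.range_succ, permL_append, Perm.mul_apply]
    simp only [permL, List.map_cons, List.map_nil, List.prod_cons, List.prod_nil, mul_one]
    rw [show (List.map (fun i => Equiv.swap i (i + 1)) (List.range m)).prod
      = permL (List.range m) from rfl, ih]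
    simp only [Equiv.swap_apply_def]
    split_ifs <;> omega

theorem permL_range_pow (m t : ℕ) (ht : t ≤ m) : (permL (List.range m) ^ t) 0 = t := by
  induction t with
  | zero => simp
  | succ t ih =>
    rw [pow_succ', Perm.mul_apply, ih (by omega), permL_range]
    simp [show t < m by omega]

theorem permL_replicate_odd (j : ℕ) (hj : j % 2 = 1) :
    permL (List.replicate j 0) = Equiv.swap 0 1 := by
  obtain ⟨k, rfl⟩ : ∃ k, j = 2 * k + 1 := ⟨j / 2, by omega⟩
  clear hj
  simp only [permL, List.map_replicate, List.prod_replicate]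
  rw [pow_succ, pow_mul]
  have : (Equiv.swap (0 : ℕ) (0 + 1)) ^ 2 = 1 := by
    rw [sq, Equiv.swap_mul_self]
  rw [this, one_pow, one_mul]

theorem perm_twoPass (j j'' : ℕ) (e : Bool) (m : ℕ) (α β : Fin m → Bool) (hj : j % 2 = 1)
    (hj'' : j'' % 2 = 0) (hm : m % 2 = 1) : FC 0 (m + 1) (perm (twoPass j j'' e m α β)) := by
  have h1 : perm (twoPass j j'' e m α β)
      = permL (List.range (m + 1)) * permL (List.range (m + 1)) := by
    rw [perm_eq]
    have h2 : (List.ofFn fun k => (twoPass j j'' e m α β k).1)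
        = (List.replicate j 0 ++ (List.range m).map (· + 1))
          ++ (List.replicate (j'' + 1) 0 ++ (List.range m).map (· + 1)) := by
      have h3 : (fun k => (twoPass j j'' e m α β k).1)
          = Fin.append (Fin.append (fun _ : Fin j => 0) (fun i : Fin m => i.val + 1))
            (Fin.append (fun _ : Fin (j'' + 1) => 0) (fun i : Fin m => i.val + 1)) := by
        ext k
        rcases pos_cases k with ⟨i, rfl⟩ | ⟨i, rfl⟩ | ⟨i, rfl⟩ | ⟨i, rfl⟩
        · simp [twoPass, pA]
        · simp [twoPass, pP]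
        · simp [twoPass, pB]
        · simp [twoPass, pQ]
      rw [h3, List.ofFn_fin_append, List.ofFn_fin_append, List.ofFn_fin_append]
      have h4 : List.ofFn (fun i : Fin m => i.val + 1) = (List.range m).map (· + 1) := by
        apply List.ext_getElem <;> simp
      have h5 : ∀ n : ℕ, List.ofFn (fun _ : Fin n => 0) = List.replicate n 0 := by
        intro n
        exact List.ofFn_const n 0
      rw [h4, h5, h5]
    rw [h2, permL_append, permL_append, permL_append, permL_replicate_odd j hj,
      permL_replicate_odd (j'' + 1) (by omega)]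
    have h6 : Equiv.swap 0 1 * permL ((List.range m).map (· + 1)) = permL (List.range (m + 1)) := by
      rw [List.range_succ_eq_map, permL_cons]
    rw [h6]
  rw [h1]
  apply FC.of_base (o := 0) ?_ le_rfl (by omega)
  · intro x _ hx
    have hsq : ∀ t : ℕ, ((permL (List.range (m + 1)) * permL (List.range (m + 1))) ^ t) 0
        = (permL (List.range (m + 1)) ^ (2 * t)) 0 := by
      intro t
      rw [← sq, ← pow_mul]
    rcases Nat.even_or_odd' x with ⟨k, rfl | rfl⟩
    · refine ⟨k, ?_⟩
      rw [hsq, permL_range_pow _ _ hx]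
    · refine ⟨k + (m + 3) / 2, ?_⟩
      have h7 : 2 * (k + (m + 3) / 2) = (2 * k + 1) + (m + 2) := by omega
      have h8 : (permL (List.range (m + 1)) ^ (m + 2)) 0 = 0 := by
        rw [show m + 2 = (m + 1) + 1 by ring, pow_succ', Perm.mul_apply,
          permL_range_pow _ _ le_rfl, permL_range]
        simp
      rw [hsq, h7, pow_add, Perm.mul_apply, h8, permL_range_pow _ _ hx]
  · intro x hx
    rw [Perm.mul_apply, permL_range, permL_range]
    have : m + 1 < x := by omega
    simp [show ¬ x < m + 1 by omega, show x ≠ m + 1 by omega]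

end H880R2.DetSig
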