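import Pool.Agent.H880R2.DetSig.TwoPass

/-!
# The pieces: the words realising `[A_{ℓ-1} with a vertex of weight 2c attached at j]` and `-E₈`
-/

namespace H880R2.DetSig

open Matrix

/-- half the length of the path -/
def rr (c : ℤ) : ℕ := c.natAbs - 1

/-- signs of the crossings of the path: first pass -/
def alphaC (c : ℤ) (i : Fin (2 * rr c + 1)) : Bool := decide (i.val % 2 = 0 ∧ 0 < c)

/-- signs of the crossings of the path: second pass -/
def betaC (c : ℤ) (i : Fin (2 * rr c + 1)) : Bool := decide (¬ (i.val % 2 = 0 ∧ c < 0))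

/-- the word of the main piece -/
def kWord (j j'' : ℕ) (c : ℤ) :
    Fin ((j + (2 * rr c + 1)) + ((j'' + 1) + (2 * rr c + 1))) → ℕ × Bool :=
  twoPass j j'' true (2 * rr c + 1) (alphaC c) (betaC c)

theorem sign_rr (c : ℤ) : ((Int.sign c : ℤ) : ℝ) * ((rr c : ℕ) + 1) = c := by
  rcases lt_trichotomy c 0 with h | h | h
  · have h1 : Int.sign c = -1 := Int.sign_eq_neg_one_of_neg h
    have h2 : ((rr c : ℕ) : ℤ) + 1 = -c := by unfold rr; omega
    have h3 : ((rr c : ℕ) : ℝ) + 1 = -c := by exact_mod_cast h2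
    rw [h1, h3]; push_cast; ring
  · subst h; simp
  · have h1 : Int.sign c = 1 := Int.sign_eq_one_of_pos h
    have h2 : ((rr c : ℕ) : ℤ) + 1 = c := by unfold rr; omega
    have h3 : ((rr c : ℕ) : ℝ) + 1 = c := by exact_mod_cast h2
    rw [h1, h3]; push_cast; ring

theorem weights (c : ℤ) (i : Fin (2 * rr c + 1)) :
    2 * ((if alphaC c i then (1 : ℝ) else 0) + (if betaC c i then (1 : ℝ) else 0) - 1)
      = if i.val % 2 = 0 then 2 * ((Int.sign c : ℤ) : ℝ) else 0 := by
  rcases lt_trichotomy c 0 with h | h | h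
  · have h1 : Int.sign c = -1 := Int.sign_eq_neg_one_of_neg h
    have h2 : ¬ 0 < c := by omega
    by_cases hi : i.val % 2 = 0 <;> simp [alphaC, betaC, hi, h, h1, h2]
  · subst h
    by_cases hi : i.val % 2 = 0 <;> simp [alphaC, betaC, hi]
  · have h1 : Int.sign c = 1 := Int.sign_eq_one_of_pos h
    have h2 : ¬ c < 0 := by omega
    by_cases hi : i.val % 2 = 0 <;> simp [alphaC, betaC, hi, h, h1, h2]

theorem kWord_inv (j j'' : ℕ) (c : ℤ)
    (hneg : ((j : ℝ) + j'' + 1) * (2 * c - j) + (j : ℝ) ^ 2 < 0) :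
    Inv (symR (kWord j j'' c))
      ((-1) ^ rr c * (((j : ℝ) + j'' + 1) * (2 * c - j) + (j : ℝ) ^ 2))
      (j + j'' + rr c) (1 + rr c) := by
  have hcard : (Fintype.card (Fin j ⊕ Fin j'') : ℕ) = j + j'' := by simp
  have hsum : ∑ i : Fin j ⊕ Fin j'', (Sum.elim (fun _ => 1) (fun _ => 0) i : ℝ) = j := by
    simp [Fintype.sum_sum_type]
  have h0 := base_inv_one (κ := Fin j ⊕ Fin j'') (fun i => Sum.elim (fun _ => 1) (fun _ => 0) i)
    (by rintro (i | i) <;> simp) (2 * c) ((Int.sign c : ℤ) : ℝ) (by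
      rw [hsum, hcard]; push_cast; exact hneg)
  rw [hsum, hcard] at h0
  push_cast at h0
  have h1 := path_inv (onesM (Fin j ⊕ Fin j''))
    (fun i => - (Sum.elim (fun _ => 1) (fun _ => 0) i : ℝ)) ((Int.sign c : ℤ) : ℝ) (rr c)
    (2 * ((Int.sign c : ℤ) : ℝ)) (by
      have : 2 * ((Int.sign c : ℤ) : ℝ) * (rr c : ℕ) + 2 * ((Int.sign c : ℤ) : ℝ) = 2 * c := by
        rw [← sign_rr c]; ring
      rw [this]
      exact h0)
  apply symR_twoPass j j'' true (rr c) (alphaC c) (betaC c) ((Int.sign c : ℤ) : ℝ)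
    (2 * ((Int.sign c : ℤ) : ℝ))
  · intro i
    rw [weights]
    by_cases hi : i.val = 2 * rr c
    · have : i.val % 2 = 0 := by omega
      simp [hi]
    · simp [hi]
  · have : (((sgnB true : ℤ) : ℝ) • onesM (Fin j ⊕ Fin j'')) = onesM (Fin j ⊕ Fin j'') := by
      simp [sgnB]
    rw [this]
    exact h1

/-- the word of the mirror image of the torus knot `T(3,5)` -/
def eWord : Fin ((5 + 1) + ((2 + 1) + 1)) → ℕ × Bool :=
  twoPass 5 2 false (2 * 0 + 1) (fun _ => false) (fun _ => false)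

theorem eWord_inv : Inv (symR eWord) 1 0 8 := by
  have hsum : ∑ i : Fin 5 ⊕ Fin 2, (Sum.elim (fun _ => 1) (fun _ => 0) i : ℝ) = 5 := by
    simp [Fintype.sum_sum_type]
  have hcard : (Fintype.card (Fin 5 ⊕ Fin 2) : ℕ) = 7 := by simp
  have h0 := base_inv_neg (κ := Fin 5 ⊕ Fin 2) (fun i => Sum.elim (fun _ => 1) (fun _ => 0) i)
    (by rintro (i | i) <;> simp) (-2) 0 (by rw [hsum, hcard]; norm_num)
  rw [hsum, hcard] at h0
  apply symR_twoPass 5 2 false 0 (fun _ => false) (fun _ => false) 0 (-2)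
  · intro i
    have : i.val = 2 * 0 := by omega
    simp [this]
  · have : (((sgnB false : ℤ) : ℝ) • onesM (Fin 5 ⊕ Fin 2)) = -onesM (Fin 5 ⊕ Fin 2) := by
      simp [sgnB]
    rw [this]
    convert h0 using 1
    norm_num

end H880R2.DetSig
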