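import Pool.Agent.H880R2.DetSig.Defs
import Pool.Agent.H880R2.DetSig.Base

/-!
# The words `σ₁^{±j} (σ₂^{±} ⋯ σ_{m+1}^{±}) σ₁^{±j'} (σ₂^{±} ⋯ σ_{m+1}^{±})`
-/

namespace H880R2.DetSig

open Matrix

/-- `j` letters in column `0`, one letter in each of the columns `1, …, m`, then `j'' + 1` letters
in column `0` and again one letter in each of the columns `1, …, m`. -/
def twoPass (j j'' : ℕ) (e : Bool) (m : ℕ) (α β : Fin m → Bool) :
    Fin ((j + m) + ((j'' + 1) + m)) → ℕ × Bool :=
  Fin.append (Fin.append (fun _ => (0, e)) (fun i => (i.val + 1, α i)))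
    (Fin.append (fun _ => (0, e)) (fun i => (i.val + 1, β i)))

section

variable {j j'' : ℕ} {e : Bool} {m : ℕ} {α β : Fin m → Bool}

/-- the four kinds of positions -/
def pA (j j'' m : ℕ) (i : Fin j) : Fin ((j + m) + ((j'' + 1) + m)) :=
  Fin.castAdd _ (Fin.castAdd _ i)
def pP (j j'' m : ℕ) (i : Fin m) : Fin ((j + m) + ((j'' + 1) + m)) :=
  Fin.castAdd _ (Fin.natAdd _ i)
def pB (j j'' m : ℕ) (i : Fin (j'' + 1)) : Fin ((j + m) + ((j'' + 1) + m)) :=
  Fin.natAdd _ (Fin.castAdd _ i)
def pQ (j j'' m : ℕ) (i : Fin m) : Fin ((j + m) + ((j'' + 1) + m)) :=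
  Fin.natAdd _ (Fin.natAdd _ i)

theorem pos_cases (k : Fin ((j + m) + ((j'' + 1) + m))) :
    (∃ i, k = pA j j'' m i) ∨ (∃ i, k = pP j j'' m i) ∨ (∃ i, k = pB j j'' m i) ∨
      (∃ i, k = pQ j j'' m i) := by
  refine Fin.addCases (fun l => ?_) (fun l => ?_) k
  · refine Fin.addCases (fun i => ?_) (fun i => ?_) l
    · exact Or.inl ⟨i, rfl⟩
    · exact Or.inr (Or.inl ⟨i, rfl⟩)
  · refine Fin.addCases (fun i => ?_) (fun i => ?_) l
    · exact Or.inr (Or.inr (Or.inl ⟨i, rfl⟩))
    · exact Or.inr (Or.inr (Or.inr ⟨i, rfl⟩))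

@[simp] theorem tp_A (i : Fin j) : twoPass j j'' e m α β (pA j j'' m i) = (0, e) := by
  simp [twoPass, pA]
@[simp] theorem tp_P (i : Fin m) :
    twoPass j j'' e m α β (pP j j'' m i) = (i.val + 1, α i) := by
  simp [twoPass, pP]
@[simp] theorem tp_B (i : Fin (j'' + 1)) :
    twoPass j j'' e m α β (pB j j'' m i) = (0, e) := by
  simp [twoPass, pB]
@[simp] theorem tp_Q (i : Fin m) :
    twoPass j j'' e m α β (pQ j j'' m i) = (i.val + 1, β i) := by
  simp [twoPass, pQ]

theorem val_A (i : Fin j) : (pA j j'' m i).val = i.val := rfl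
theorem val_P (i : Fin m) : (pP j j'' m i).val = j + i.val := rfl
theorem val_B (i : Fin (j'' + 1)) : (pB j j'' m i).val = j + m + i.val := rfl
theorem val_Q (i : Fin m) : (pQ j j'' m i).val = j + m + (j'' + 1 + i.val) := rfl

theorem last_A (i : Fin j) : lastIn (twoPass j j'' e m α β) (pA j j'' m i)
    = pB j j'' m (Fin.last j'') := by
  apply lastIn_eq
  · simp
  · intro l hl
    rcases pos_cases l with ⟨k, rfl⟩ | ⟨k, rfl⟩ | ⟨k, rfl⟩ | ⟨k, rfl⟩
    · exfalso
      have h : j + m + j'' < k.val := hl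
      have := k.2; omega
    · simp
    · exfalso
      have h : j + m + j'' < j + m + k.val := hl
      have := k.2; omega
    · simp

theorem last_B (i : Fin (j'' + 1)) : lastIn (twoPass j j'' e m α β) (pB j j'' m i)
    = pB j j'' m (Fin.last j'') := by
  apply lastIn_eq
  · simp
  · intro l hl
    rcases pos_cases l with ⟨k, rfl⟩ | ⟨k, rfl⟩ | ⟨k, rfl⟩ | ⟨k, rfl⟩
    · exfalso
      have h : j + m + j'' < k.val := hl
      have := k.2; omega
    · simp
    · exfalso
      have h : j + m + j'' < j + m + k.val := hl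
      have := k.2; omega
    · simp

theorem last_P (i : Fin m) : lastIn (twoPass j j'' e m α β) (pP j j'' m i)
    = pQ j j'' m i := by
  apply lastIn_eq
  · simp
  · intro l hl
    rcases pos_cases l with ⟨k, rfl⟩ | ⟨k, rfl⟩ | ⟨k, rfl⟩ | ⟨k, rfl⟩
    · simp
    · exfalso
      have h : j + m + (j'' + 1 + i.val) < j + k.val := hl
      have := k.2; omega
    · simp
    · have h : j + m + (j'' + 1 + i.val) < j + m + (j'' + 1 + k.val) := hl
      simp only [tp_Q, tp_P, ne_eq]; omega

theorem last_Q (i : Fin m) : lastIn (twoPass j j'' e m α β) (pQ j j'' m i)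
    = pQ j j'' m i := by
  apply lastIn_eq
  · simp
  · intro l hl
    rcases pos_cases l with ⟨k, rfl⟩ | ⟨k, rfl⟩ | ⟨k, rfl⟩ | ⟨k, rfl⟩
    · simp
    · exfalso
      have h : j + m + (j'' + 1 + i.val) < j + k.val := hl
      have := k.2; omega
    · simp
    · have h : j + m + (j'' + 1 + i.val) < j + m + (j'' + 1 + k.val) := hl
      simp only [tp_Q, ne_eq]; omega

/-- symmetrised pairing -/
def symP {N : ℕ} (f : Fin N → ℕ × Bool) (k l : Fin N) : ℤ := pairing f k l + pairing f l k

theorem symP_eq {N : ℕ} (f : Fin N → ℕ × Bool) (k l : Fin N) :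
    symP f k l = if k.val = l.val then (if (f k).2 then 2 else 0)
      else if (f k).1 = (f l).1 then 1
      else if (k.val < l.val ∧ (f l).1 = (f k).1 + 1) ∨ (l.val < k.val ∧ (f k).1 = (f l).1 + 1)
        then -1 else 0 := by
  unfold symP pairing
  rcases lt_trichotomy k l with h | h | h
  · have h1 : k ≠ l := ne_of_lt h
    have h2 : ¬ l < k := not_lt.2 (le_of_lt h)
    have h3 : ¬ k.val = l.val := fun h => h1 (Fin.ext h)
    have h4 : k.val < l.val := h
    have h5 : ¬ l.val < k.val := by omega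
    by_cases h6 : (f l).1 = (f k).1
    · simp [h1, h1.symm, h2, h3, h, h6]
    · simp [h1, h1.symm, h2, h3, h, h4, h5, h6, Ne.symm h6]
  · subst h
    by_cases hb : (f k).2 = true <;> simp [hb]
  · have h1 : l ≠ k := ne_of_lt h
    have h2 : ¬ k < l := not_lt.2 (le_of_lt h)
    have h3 : ¬ k.val = l.val := fun h => h1 (Fin.ext h).symm
    have h4 : l.val < k.val := h
    have h5 : ¬ k.val < l.val := by omega
    by_cases h6 : (f l).1 = (f k).1
    · simp [h1, h1.symm, h2, h3, h, h6]
    · simp [h1, h1.symm, h2, h3, h, h4, h5, h6, Ne.symm h6]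

theorem sym_eq {N : ℕ} (f : Fin N → ℕ × Bool) (x y : Loop f) :
    (seifert f + (seifert f)ᵀ) x y = symP f x.1 y.1 - symP f x.1 (lastIn f y.1)
      - symP f (lastIn f x.1) y.1 + symP f (lastIn f x.1) (lastIn f y.1) := by
  simp only [Matrix.add_apply, Matrix.transpose_apply, seifert, symP]
  ring

/-- the loops -/
def tpLoop (j j'' : ℕ) (e : Bool) (m : ℕ) (α β : Fin m → Bool) :
    (Fin j ⊕ Fin j'') ⊕ Fin m → Loop (twoPass j j'' e m α β)
  | Sum.inl (Sum.inl i) => ⟨pA j j'' m i, by
      rw [last_A]; show i.val < j + m + j''; have := i.2; omega⟩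
  | Sum.inl (Sum.inr i) => ⟨pB j j'' m i.castSucc, by
      rw [last_B]; show j + m + i.val < j + m + j''; have := i.2; omega⟩
  | Sum.inr i => ⟨pP j j'' m i, by
      rw [last_P]; show j + i.val < j + m + (j'' + 1 + i.val); have := i.2; omega⟩

theorem tpLoop_bijective (j j'' : ℕ) (e : Bool) (m : ℕ) (α β : Fin m → Bool) :
    Function.Bijective (tpLoop j j'' e m α β) := by
  constructor
  · rintro ((x | x) | x) ((y | y) | y) hxy
    all_goals
      have h := congrArg (fun z => z.1.val) hxy
      have hx := x.2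
      have hy := y.2
      simp only [tpLoop, val_A, val_B, val_P, Fin.val_castSucc] at h
      first
      | (exfalso; omega)
      | (have : x = y := Fin.ext (by omega)
         rw [this])
  · rintro ⟨z, hz⟩
    rcases pos_cases z with ⟨k, rfl⟩ | ⟨k, rfl⟩ | ⟨k, rfl⟩ | ⟨k, rfl⟩
    · exact ⟨Sum.inl (Sum.inl k), rfl⟩
    · exact ⟨Sum.inr k, rfl⟩
    · have hz' := hz
      rw [last_B] at hz'
      have h : j + m + k.val < j + m + j'' := hz'
      refine ⟨Sum.inl (Sum.inr ⟨k.val, by omega⟩), rfl⟩
    · rw [last_Q] at hz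
      exact absurd hz (lt_irrefl _)

/-- `±1` according to the sign of the crossings in column `0` -/
def sgnB (e : Bool) : ℤ := if e then 1 else -1

theorem symP_comm {N : ℕ} (f : Fin N → ℕ × Bool) (k l : Fin N) : symP f k l = symP f l k := by
  unfold symP; ring

theorem symP_AA (x y : Fin j) : symP (twoPass j j'' e m α β) (pA j j'' m x) (pA j j'' m y)
    = if x.val = y.val then (if e then 2 else 0) else 1 := by
  rw [symP_eq]; simp only [tp_A, val_A]; split_ifs <;> first | rfl | contradiction | omega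

theorem symP_BB (x y : Fin (j'' + 1)) : symP (twoPass j j'' e m α β) (pB j j'' m x) (pB j j'' m y)
    = if x.val = y.val then (if e then 2 else 0) else 1 := by
  rw [symP_eq]; simp only [tp_B, val_B]; split_ifs <;> first | rfl | contradiction | omega

theorem symP_AB (x : Fin j) (y : Fin (j'' + 1)) : symP (twoPass j j'' e m α β) (pA j j'' m x) (pB j j'' m y) = 1 := by
  have := x.2
  rw [symP_eq]; simp only [tp_A, tp_B, val_A, val_B]; split_ifs <;> first | rfl | contradiction | omega

theorem symP_AP (x : Fin j) (y : Fin m) : symP (twoPass j j'' e m α β) (pA j j'' m x) (pP j j'' m y)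
    = if y.val = 0 then -1 else 0 := by
  have := x.2
  rw [symP_eq]; simp only [tp_A, tp_P, val_A, val_P]
  split_ifs <;> first | rfl | contradiction | omega

theorem symP_AQ (x : Fin j) (y : Fin m) : symP (twoPass j j'' e m α β) (pA j j'' m x) (pQ j j'' m y)
    = if y.val = 0 then -1 else 0 := by
  have := x.2
  rw [symP_eq]; simp only [tp_A, tp_Q, val_A, val_Q]; split_ifs <;> first | rfl | contradiction | omega

theorem symP_BP (x : Fin (j'' + 1)) (y : Fin m) : symP (twoPass j j'' e m α β) (pB j j'' m x) (pP j j'' m y) = 0 := by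
  have := x.2
  have := y.2
  rw [symP_eq]; simp only [tp_B, tp_P, val_B, val_P]
  have h1 : ¬ (j + m + x.val < j + y.val) := by omega
  split_ifs <;> first | rfl | contradiction | omega | (simp_all; done) | (simp at *; omega)

theorem symP_BQ (x : Fin (j'' + 1)) (y : Fin m) : symP (twoPass j j'' e m α β) (pB j j'' m x) (pQ j j'' m y)
    = if y.val = 0 then -1 else 0 := by
  have := x.2
  rw [symP_eq]; simp only [tp_B, tp_Q, val_B, val_Q]; split_ifs <;> first | rfl | contradiction | omega

theorem symP_PP (x y : Fin m) : symP (twoPass j j'' e m α β) (pP j j'' m x) (pP j j'' m y)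
    = if x.val = y.val then (if α x then 2 else 0)
      else if x.val + 1 = y.val ∨ y.val + 1 = x.val then -1 else 0 := by
  rw [symP_eq]; simp only [tp_P, val_P]; split_ifs <;> first | rfl | contradiction | omega

theorem symP_QQ (x y : Fin m) : symP (twoPass j j'' e m α β) (pQ j j'' m x) (pQ j j'' m y)
    = if x.val = y.val then (if β x then 2 else 0)
      else if x.val + 1 = y.val ∨ y.val + 1 = x.val then -1 else 0 := by
  rw [symP_eq]; simp only [tp_Q, val_Q]; split_ifs <;> first | rfl | contradiction | omega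

theorem symP_PQ (x y : Fin m) : symP (twoPass j j'' e m α β) (pP j j'' m x) (pQ j j'' m y)
    = if x.val = y.val then 1 else if x.val + 1 = y.val then -1 else 0 := by
  have := x.2
  rw [symP_eq]; simp only [tp_P, tp_Q, val_P, val_Q]; split_ifs <;> first | rfl | contradiction | omega

theorem ent_AA (x y : Fin j ⊕ Fin j'') :
    (seifert (twoPass j j'' e m α β) + (seifert (twoPass j j'' e m α β))ᵀ) (tpLoop j j'' e m α β (Sum.inl x)) (tpLoop j j'' e m α β (Sum.inl y))
      = sgnB e * (if x = y then 2 else 1) := by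
  rw [sym_eq]
  rcases x with x | x <;> rcases y with y | y
  · simp only [tpLoop, last_A, symP_AA, symP_AB, symP_comm _ (pB _ _ _ _) (pA _ _ _ _), symP_BB,
      Sum.inl.injEq, Fin.ext_iff]
    cases e <;> simp [sgnB] <;> split_ifs <;> norm_num
  · have hy := y.2
    have h2 : ¬ (j'' = y.val) := by omega
    simp only [tpLoop, last_A, last_B, symP_AB, symP_BB, Fin.val_last, Fin.val_castSucc, h2]
    cases e <;> simp [sgnB]
  · have hx := x.2
    have h2 : ¬ (x.val = j'') := by omega
    simp only [tpLoop, last_A, last_B, symP_comm _ (pB _ _ _ _) (pA _ _ _ _), symP_AB, symP_BB,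
      Fin.val_last, Fin.val_castSucc, h2]
    cases e <;> simp [sgnB]
  · have hx := x.2
    have hy := y.2
    have h2 : ¬ (x.val = j'') := by omega
    have h3 : ¬ (j'' = y.val) := by omega
    simp only [tpLoop, last_B, symP_BB, Sum.inr.injEq, Fin.ext_iff,
      Fin.val_last, Fin.val_castSucc, h2, h3]
    cases e <;> simp [sgnB] <;> split_ifs <;> norm_num

theorem ent_AP (x : Fin j ⊕ Fin j'') (y : Fin m) :
    (seifert (twoPass j j'' e m α β) + (seifert (twoPass j j'' e m α β))ᵀ) (tpLoop j j'' e m α β (Sum.inl x)) (tpLoop j j'' e m α β (Sum.inr y))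
      = if y.val = 0 then -(Sum.elim (fun _ => 1) (fun _ => 0) x) else 0 := by
  rw [sym_eq]
  rcases x with x | x
  · simp only [tpLoop, last_A, last_P, symP_AP, symP_AQ, symP_BP, symP_BQ, Sum.elim_inl]
    split_ifs <;> norm_num
  · simp only [tpLoop, last_B, last_P, symP_BP, symP_BQ, Sum.elim_inr]
    split_ifs <;> norm_num

theorem ent_PP (x y : Fin m) :
    (seifert (twoPass j j'' e m α β) + (seifert (twoPass j j'' e m α β))ᵀ) (tpLoop j j'' e m α β (Sum.inr x)) (tpLoop j j'' e m α β (Sum.inr y))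
      = if x = y then 2 * ((if α x then 1 else 0) + (if β x then 1 else 0) - 1)
        else if x.val + 1 = y.val ∨ y.val + 1 = x.val then -1 else 0 := by
  rw [sym_eq]
  simp only [tpLoop, last_P, symP_comm _ (pQ _ _ _ _) (pP _ _ _ _), symP_PP, symP_PQ, symP_QQ,
    Fin.ext_iff]
  by_cases h1 : x.val = y.val
  · have : x = y := Fin.ext h1
    subst this
    by_cases ha : α x = true <;> by_cases hb : β x = true <;> simp [ha, hb]
  · by_cases h2 : x.val + 1 = y.val
    · have h3 : ¬ (y.val = x.val) := by omega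
      have h4 : ¬ (y.val + 1 = x.val) := by omega
      simp [h1, h2, h3, h4]
    · by_cases h5 : y.val + 1 = x.val
      · have h3 : ¬ (y.val = x.val) := by omega
        simp [h1, h2, h3, h5]
      · have h3 : ¬ (y.val = x.val) := by omega
        simp [h1, h2, h3, h5]

end

/-- the symmetrised Seifert matrix of a two pass word -/
theorem symR_twoPass (j j'' : ℕ) (e : Bool) (r : ℕ) (α β : Fin (2 * r + 1) → Bool) (η b : ℝ)
    (hw : ∀ i : Fin (2 * r + 1),
      2 * ((if α i then (1 : ℝ) else 0) + (if β i then (1 : ℝ) else 0) - 1)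
        = if i.val = 2 * r then b else if i.val % 2 = 0 then 2 * η else 0)
    {d : ℝ} {p q : ℕ}
    (h : Inv (pathM (((sgnB e : ℤ) : ℝ) • onesM (Fin j ⊕ Fin j''))
      (fun i => - (Sum.elim (fun _ => 1) (fun _ => 0) i : ℝ)) η r b) d p q) :
    Inv (symR (twoPass j j'' e (2 * r + 1) α β)) d p q := by
  apply Inv.reindex (Equiv.ofBijective _ (tpLoop_bijective j j'' e (2 * r + 1) α β))
  have h3 : (symR (twoPass j j'' e (2 * r + 1) α β)).submatrix
      (Equiv.ofBijective _ (tpLoop_bijective j j'' e (2 * r + 1) α β))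
      (Equiv.ofBijective _ (tpLoop_bijective j j'' e (2 * r + 1) α β))
      = pathM (((sgnB e : ℤ) : ℝ) • onesM (Fin j ⊕ Fin j''))
      (fun i => - (Sum.elim (fun _ => 1) (fun _ => 0) i : ℝ)) η r b := by
    ext x y
    simp only [symR, Matrix.submatrix_apply, Matrix.map_apply, Equiv.ofBijective_apply]
    rcases x with x | x <;> rcases y with y | y
    · rw [ent_AA]
      by_cases hxy : x = y
      · subst hxy; simp [pathM, onesM]; ring
      · simp [pathM, onesM, hxy]
    · rw [ent_AP]
      rcases x with x | x <;> by_cases hy : y.val = 0 <;> simp [pathM, cplBlock, hy, -Fin.val_eq_zero_iff]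
    · have hsym : (seifert (twoPass j j'' e (2 * r + 1) α β)
          + (seifert (twoPass j j'' e (2 * r + 1) α β))ᵀ)
          (tpLoop j j'' e (2 * r + 1) α β (Sum.inr x)) (tpLoop j j'' e (2 * r + 1) α β (Sum.inl y))
          = (seifert (twoPass j j'' e (2 * r + 1) α β)
          + (seifert (twoPass j j'' e (2 * r + 1) α β))ᵀ)
          (tpLoop j j'' e (2 * r + 1) α β (Sum.inl y))
          (tpLoop j j'' e (2 * r + 1) α β (Sum.inr x)) := by
        simp only [Matrix.add_apply, Matrix.transpose_apply]; ring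
      rw [hsym, ent_AP]
      rcases y with y | y <;> by_cases hx : x.val = 0 <;> simp [pathM, cplBlock, hx, -Fin.val_eq_zero_iff]
    · rw [ent_PP]
      simp only [pathM, Matrix.fromBlocks_apply₂₂, pathBlock, Matrix.of_apply]
      by_cases hxy : x = y
      · subst hxy
        rw [if_pos rfl, if_pos rfl, ← hw x]
        push_cast
        rfl
      · rw [if_neg hxy, if_neg hxy]
        split_ifs <;> simp
  rw [h3]
  exact h

end H880R2.DetSig
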